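import Pool.Agent.H66.UP.Dim
import Pool.Agent.H18.UP.FNA
import Pool.Agent.H44.RR.CHC
import Pool.Agent.H57.CF.UPF

/-!
# THEOREM BEAU: the dimension with an explicit bound

`dim_s`: as `dim_pos` (H66/UP/Dim, the proof is a copy), with the bound `log 2 / log (8 Λ)` and in the ball of radius `ρ0`. `UPd κ P`: `P` is uniformly perfect at small scales with the constant `κ`. `dims_up`: then `P` has dimension at least `sd κ = log 2 / log (32 / κ)` in every open set which it meets.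
-/

set_option autoImplicit false

open Filter Topology Metric Set

namespace Pool.Agent.H83.BE

open Pool.Agent.H35.EX (chord)
open Pool.Agent.H66.UP (UPn)

section Tree

variable {X : Type*} [MetricSpace X]

open Classical in
/-- the second child -/
private noncomputable def Yc (P : Set X) (Λ : ℝ) (x : X) (ρ : ℝ) : X :=
  if h : ∃ y ∈ P, ρ / Λ ≤ dist y x ∧ dist y x ≤ ρ then h.choose else x

open Classical in
/-- the tree -/
private noncomputable def xs (P : Set X) (x0 : X) (Λ : ℝ) (ρ : ℕ → ℝ) (ω : ℕ → Fin 2) : ℕ → X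
  | 0 => x0
  | n + 1 => if ω n = 0 then xs P x0 Λ ρ ω n else Yc P Λ (xs P x0 Λ ρ ω n) (ρ n)

private theorem xs_agree (P : Set X) (x0 : X) (Λ : ℝ) (ρ : ℕ → ℝ) {ω ω' : ℕ → Fin 2} {n : ℕ}
    (h : ∀ i < n, ω i = ω' i) : xs P x0 Λ ρ ω n = xs P x0 Λ ρ ω' n := by
  induction n with
  | zero => rfl
  | succ n ih =>
    have h1 := ih fun i hi => h i (by omega)
    have h2 := h n (by omega)
    show (if ω n = 0 then xs P x0 Λ ρ ω n else Yc P Λ (xs P x0 Λ ρ ω n) (ρ n)) =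
      (if ω' n = 0 then xs P x0 Λ ρ ω' n else Yc P Λ (xs P x0 Λ ρ ω' n) (ρ n))
    rw [h1, h2]

variable [CompleteSpace X]

theorem dim_s {P : Set X} (hP : IsClosed P) {x0 : X} (h0 : x0 ∈ P) {Λ ρ0 : ℝ} (hΛ : 1 < Λ) (hρ : 0 < ρ0)
    (hup : UPn P x0 Λ ρ0) : ENNReal.ofReal (Real.log 2 / Real.log (8 * Λ)) ≤ dimH (P ∩ closedBall x0 ρ0) := by
  obtain ⟨r, hr⟩ : ∃ r : ℝ, r = 1 / (8 * Λ) := ⟨_, rfl⟩
  have hΛ0 : 0 < Λ := by linarith
  have hr0 : 0 < r := by rw [hr]; positivity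
  have hr8 : r ≤ 1 / 8 := by
    rw [hr]
    apply one_div_le_one_div_of_le (by norm_num)
    linarith
  have hr1 : r < 1 := by linarith
  obtain ⟨ρ, hρd⟩ : ∃ ρ : ℕ → ℝ, ρ = fun n => ρ0 / 2 * r ^ n := ⟨_, rfl⟩
  have hρn : ∀ n, ρ n = ρ0 / 2 * r ^ n := fun n => by rw [hρd]
  have hρpos : ∀ n, 0 < ρ n := fun n => by rw [hρn]; positivity
  have hρle : ∀ n, ρ n ≤ ρ0 := fun n => by
    rw [hρn]
    have h1 : r ^ n ≤ 1 := pow_le_one₀ hr0.le hr1.le
    nlinarith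
  -- the sum of the radii
  have hsum : ∀ n, (∑ i ∈ Finset.range n, ρ i) ≤ ρ0 := by
    intro n
    have h1 : ∑ i ∈ Finset.range n, ρ i = ρ0 / 2 * ∑ i ∈ Finset.range n, r ^ i := by
      rw [Finset.mul_sum]
      exact Finset.sum_congr rfl fun i _ => hρn i
    have h2 : ∑ i ∈ Finset.range n, r ^ i ≤ (1 - r)⁻¹ := by
      rw [← tsum_geometric_of_lt_one hr0.le hr1]
      exact (summable_geometric_of_lt_one hr0.le hr1).sum_le_tsum _ fun i _ => by positivity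
    have h3 : (1 - r)⁻¹ ≤ 2 := by
      rw [inv_le_comm₀ (by linarith) (by norm_num)]
      linarith
    rw [h1]
    nlinarith
  -- the points of the tree
  have key : ∀ (ω : ℕ → Fin 2) (n : ℕ), xs P x0 Λ ρ ω n ∈ P ∧ dist (xs P x0 Λ ρ ω n) x0 ≤ ∑ i ∈ Finset.range n, ρ i := by
    intro ω n
    induction n with
    | zero =>
      refine ⟨h0, ?_⟩
      show dist x0 x0 ≤ _
      rw [dist_self, Finset.sum_range_zero]
    | succ n ih =>
      obtain ⟨h1, h2⟩ := ih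
      have hex := hup _ h1 (h2.trans (hsum n)) (ρ n) (hρpos n) (hρle n)
      rw [Finset.sum_range_succ]
      show (if ω n = 0 then xs P x0 Λ ρ ω n else Yc P Λ (xs P x0 Λ ρ ω n) (ρ n)) ∈ P ∧
        dist (if ω n = 0 then xs P x0 Λ ρ ω n else Yc P Λ (xs P x0 Λ ρ ω n) (ρ n)) x0 ≤ _
      by_cases hω : ω n = 0
      · rw [if_pos hω]
        exact ⟨h1, h2.trans (by linarith [hρpos n])⟩
      · rw [if_neg hω]
        unfold Yc
        rw [dif_pos hex]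
        obtain ⟨h3, h4, h5⟩ := hex.choose_spec
        refine ⟨h3, (dist_triangle _ (xs P x0 Λ ρ ω n) _).trans ?_⟩
        linarith
  have hYs : ∀ (ω : ℕ → Fin 2) (n : ℕ), ρ n / Λ ≤ dist (Yc P Λ (xs P x0 Λ ρ ω n) (ρ n)) (xs P x0 Λ ρ ω n) ∧
      dist (Yc P Λ (xs P x0 Λ ρ ω n) (ρ n)) (xs P x0 Λ ρ ω n) ≤ ρ n := by
    intro ω n
    obtain ⟨h1, h2⟩ := key ω n
    have hex := hup _ h1 (h2.trans (hsum n)) (ρ n) (hρpos n) (hρle n)
    unfold Yc
    rw [dif_pos hex]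
    exact hex.choose_spec.2
  have hstep : ∀ (ω : ℕ → Fin 2) (n : ℕ), dist (xs P x0 Λ ρ ω n) (xs P x0 Λ ρ ω (n + 1)) ≤ ρ0 / 2 * r ^ n := by
    intro ω n
    rw [← hρn]
    show dist _ (if ω n = 0 then xs P x0 Λ ρ ω n else Yc P Λ (xs P x0 Λ ρ ω n) (ρ n)) ≤ _
    by_cases hω : ω n = 0
    · rw [if_pos hω, dist_self]
      exact (hρpos n).le
    · rw [if_neg hω, dist_comm]
      exact (hYs ω n).2
  have hlim : ∀ ω : ℕ → Fin 2, ∃ y, Tendsto (xs P x0 Λ ρ ω) atTop (𝓝 y) := fun ω =>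
    cauchySeq_tendsto_of_complete (cauchySeq_of_le_geometric r (ρ0 / 2) hr1 (hstep ω))
  choose F hF using hlim
  have hFP : ∀ ω, F ω ∈ P := fun ω => hP.mem_of_tendsto (hF ω) (Eventually.of_forall fun n => (key ω n).1)
  have hFB : ∀ ω, F ω ∈ closedBall x0 ρ0 := fun ω =>
    isClosed_closedBall.mem_of_tendsto (hF ω) (Eventually.of_forall fun n => (key ω n).2.trans (hsum n))
  have hFd : ∀ ω n, dist (xs P x0 Λ ρ ω n) (F ω) ≤ ρ0 / 2 * r ^ n / (1 - r) := fun ω n =>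
    dist_le_of_le_geometric_of_tendsto r (ρ0 / 2) hr1 (hstep ω) (hF ω) n
  have hFd' : ∀ ω n, dist (xs P x0 Λ ρ ω (n + 1)) (F ω) ≤ ρ n / (7 * Λ) := by
    intro ω n
    refine (hFd ω (n + 1)).trans ?_
    rw [hρn, pow_succ, div_le_div_iff₀ (by linarith) (by positivity)]
    have h1 : r * (7 * Λ) ≤ 1 - r := by
      have h2 : r * (8 * Λ) = 1 := by rw [hr]; field_simp
      nlinarith
    have h2 : 0 ≤ ρ0 / 2 * r ^ n := by positivity
    calc ρ0 / 2 * (r ^ n * r) * (7 * Λ) = ρ0 / 2 * r ^ n * (r * (7 * Λ)) := by ring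
      _ ≤ ρ0 / 2 * r ^ n * (1 - r) := mul_le_mul_of_nonneg_left h1 h2
  -- separation
  have hsep0 : ∀ (ω ω' : ℕ → Fin 2) (n : ℕ), (∀ i < n, ω i = ω' i) → ω n = 0 → ω' n ≠ 0 →
      ρ n / (2 * Λ) ≤ dist (F ω) (F ω') := by
    intro ω ω' n hag h1 h2
    have e1 : xs P x0 Λ ρ ω (n + 1) = xs P x0 Λ ρ ω n := by
      show (if ω n = 0 then xs P x0 Λ ρ ω n else Yc P Λ (xs P x0 Λ ρ ω n) (ρ n)) = _
      rw [if_pos h1]
    have e2 : xs P x0 Λ ρ ω' (n + 1) = Yc P Λ (xs P x0 Λ ρ ω' n) (ρ n) := by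
      show (if ω' n = 0 then xs P x0 Λ ρ ω' n else Yc P Λ (xs P x0 Λ ρ ω' n) (ρ n)) = _
      rw [if_neg h2]
    have e3 := xs_agree P x0 Λ ρ hag
    have h3 := (hYs ω' n).1
    rw [← e2, ← e3, ← e1] at h3
    have h4 := hFd' ω n
    have h5 := hFd' ω' n
    have h6 : dist (xs P x0 Λ ρ ω' (n + 1)) (xs P x0 Λ ρ ω (n + 1)) ≤
        dist (xs P x0 Λ ρ ω' (n + 1)) (F ω') + dist (F ω') (F ω) + dist (F ω) (xs P x0 Λ ρ ω (n + 1)) :=
      dist_triangle4 _ _ _ _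
    rw [dist_comm (F ω) (xs P x0 Λ ρ ω (n + 1)), dist_comm (F ω') (F ω)] at h6
    have h7 : ρ n / (2 * Λ) ≤ ρ n / Λ - 2 * (ρ n / (7 * Λ)) := by
      have h8 := hρpos n
      have e4 : ρ n / (2 * Λ) = ρ n / Λ * (1 / 2) := by field_simp
      have e5 : ρ n / (7 * Λ) = ρ n / Λ * (1 / 7) := by field_simp
      have h9 : 0 < ρ n / Λ := by positivity
      rw [e4, e5]
      linarith
    linarith
  have hsep : ∀ (ω ω' : ℕ → Fin 2) (n : ℕ), (∀ i < n, ω i = ω' i) → ω n ≠ ω' n →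
      ρ n / (2 * Λ) ≤ dist (F ω) (F ω') := by
    intro ω ω' n hag hne
    by_cases h1 : ω n = 0
    · exact hsep0 ω ω' n hag h1 fun h2 => hne (h1.trans h2.symm)
    · have h2 : ω' n = 0 := by
        have := Fin.exists_fin_two.1 ⟨ω' n, rfl⟩
        rcases this with h | h
        · exact h
        · exfalso
          have h3 := Fin.exists_fin_two.1 ⟨ω n, rfl⟩
          rcases h3 with h4 | h4
          · exact h1 h4
          · exact hne (h4.trans h.symm)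
      rw [dist_comm]
      exact hsep0 ω' ω n (fun i hi => (hag i hi).symm) h2 h1
  -- first difference
  have hfd : ∀ ω ω' : ℕ → Fin 2, ω ≠ ω' → ∃ n, (∀ i < n, ω i = ω' i) ∧ ω n ≠ ω' n := by
    classical
    intro ω ω' hne
    have hex : ∃ n, ω n ≠ ω' n := by
      by_contra hcon
      push Not at hcon
      exact hne (funext hcon)
    refine ⟨Nat.find hex, fun i hi => ?_, Nat.find_spec hex⟩
    by_contra hcon
    exact Nat.find_min hex hi hcon
  have hinj : Function.Injective F := by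
    intro ω ω' he
    by_contra hne
    obtain ⟨n, h1, h2⟩ := hfd ω ω' hne
    have h3 := hsep ω ω' n h1 h2
    rw [he, dist_self] at h3
    have h4 : 0 < ρ n / (2 * Λ) := by have := hρpos n; positivity
    linarith
  -- the Hölder map
  obtain ⟨s, hs⟩ : ∃ s : ℝ, s = Real.log 2 / Real.log (8 * Λ) := ⟨_, rfl⟩
  have hL : 0 < Real.log (8 * Λ) := Real.log_pos (by linarith)
  have hs0 : 0 < s := by
    rw [hs]
    have := Real.log_pos (show (1 : ℝ) < 2 by norm_num)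
    positivity
  have hrs : ∀ n : ℕ, (r ^ n) ^ s = ((2 : ℝ) ^ n)⁻¹ := by
    intro n
    have h1 : r ^ s = (2 : ℝ)⁻¹ := by
      have h2 : r = Real.exp (-Real.log (8 * Λ)) := by
        rw [Real.exp_neg, Real.exp_log (by positivity), hr, one_div]
      rw [h2, ← Real.exp_mul, hs]
      have h3 : -Real.log (8 * Λ) * (Real.log 2 / Real.log (8 * Λ)) = -Real.log 2 := by
        field_simp
      rw [h3, Real.exp_neg, Real.exp_log (by norm_num)]
    rw [← Real.rpow_natCast r n, ← Real.rpow_mul hr0.le, mul_comm (n : ℝ) s, Real.rpow_mul hr0.le, h1,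
      Real.rpow_natCast, inv_pow]
  obtain ⟨G, hG⟩ : ∃ G : X → ℝ, G = Function.extend F (Real.ofDigits (b := 2)) (fun _ => 0) := ⟨_, rfl⟩
  have hGF : ∀ ω, G (F ω) = Real.ofDigits ω := by
    intro ω
    rw [hG]
    exact hinj.extend_apply _ _ ω
  have hhol : ∀ ω ω', |Real.ofDigits ω - Real.ofDigits ω'| ≤ (4 * Λ / ρ0) ^ s * dist (F ω) (F ω') ^ s := by
    intro ω ω'
    by_cases hne : ω = ω'
    · rw [hne, sub_self, abs_zero]
      positivity
    · obtain ⟨n, h1, h2⟩ := hfd ω ω' hne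
      have h3 := hsep ω ω' n h1 h2
      have h4 := Real.abs_ofDigits_sub_ofDigits_le h1
      refine h4.trans ?_
      have h5 : r ^ n ≤ 4 * Λ / ρ0 * dist (F ω) (F ω') := by
        rw [hρn] at h3
        have h6 : r ^ n = 4 * Λ / ρ0 * (ρ0 / 2 * r ^ n / (2 * Λ)) := by
          field_simp
          ring
        rw [h6]
        exact mul_le_mul_of_nonneg_left h3 (by positivity)
      have h6 := Real.rpow_le_rpow (by positivity) h5 hs0.le
      rw [hrs, Real.mul_rpow (by positivity) dist_nonneg] at h6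
      exact_mod_cast h6
  have hC0 : 0 ≤ (4 * Λ / ρ0) ^ s := by positivity
  obtain ⟨Cn, hCn⟩ : ∃ Cn : NNReal, (Cn : ℝ) = (4 * Λ / ρ0) ^ s := ⟨⟨_, hC0⟩, rfl⟩
  obtain ⟨Sn, hSn⟩ : ∃ Sn : NNReal, (Sn : ℝ) = s := ⟨⟨_, hs0.le⟩, rfl⟩
  have hHol : HolderOnWith Cn Sn G (range F) := by
    rintro _ ⟨ω, rfl⟩ _ ⟨ω', rfl⟩
    rw [hGF, hGF, edist_dist, edist_dist, Real.dist_eq, hSn]
    have h1 := hhol ω ω'
    rw [ENNReal.ofReal_rpow_of_nonneg dist_nonneg hs0.le]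
    have h3 : (Cn : ENNReal) = ENNReal.ofReal ((4 * Λ / ρ0) ^ s) := by
      rw [← hCn, ENNReal.ofReal_coe_nnreal]
    rw [h3, ← ENNReal.ofReal_mul hC0]
    exact ENNReal.ofReal_le_ofReal h1
  have himg : Icc (0 : ℝ) 1 ⊆ G '' range F := by
    intro t ht
    obtain ⟨ω, -, hω⟩ := Real.ofDigits_SurjOn (b := 2) (by norm_num) ht
    exact ⟨F ω, ⟨ω, rfl⟩, by rw [hGF, hω]⟩
  have hdim1 : (1 : ENNReal) ≤ dimH (G '' range F) := by
    have h1 : dimH (Icc (0 : ℝ) 1) = 1 := by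
      rw [Real.dimH_of_nonempty_interior]
      · simp
      · rw [interior_Icc]
        exact ⟨1 / 2, by norm_num, by norm_num⟩
    rw [← h1]
    exact dimH_mono himg
  have hrs0 : (0 : NNReal) < Sn := by
    rw [← NNReal.coe_pos, hSn]
    exact hs0
  have h2 := hHol.dimH_image_le hrs0
  have h3 : dimH (range F) ≤ dimH (P ∩ closedBall x0 ρ0) :=
    dimH_mono (by rintro _ ⟨ω, rfl⟩; exact ⟨hFP ω, hFB ω⟩)
  refine le_trans ?_ h3
  have h4 := hdim1.trans h2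
  have h5 : (Sn : ENNReal) ≠ 0 := by
    rw [Ne, ENNReal.coe_eq_zero]
    exact hrs0.ne'
  rw [ENNReal.le_div_iff_mul_le (Or.inl h5) (Or.inl ENNReal.coe_ne_top), one_mul] at h4
  refine le_trans (le_of_eq ?_) h4
  rw [← hs, ← hSn, ENNReal.ofReal_coe_nnreal]


end Tree

/-- uniformly perfect at small scales, with the constant `κ` -/
def UPd (κ : ℝ) (P : Set (OnePoint ℂ)) : Prop := ∃ r0 : ℝ, 0 < r0 ∧ ∀ x ∈ P, ∀ r : ℝ, 0 < r → r < r0 →
  ∃ y ∈ P, κ * r ≤ chord x y ∧ chord x y < r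

/-- the lower bound for the dimension -/
noncomputable def sd (κ : ℝ) : ℝ := Real.log 2 / Real.log (8 * (4 / κ))

theorem sd_pos {κ : ℝ} (h0 : 0 < κ) (h1 : κ < 1) : 0 < sd κ := by
  unfold sd
  have h2 : 1 < 8 * (4 / κ) := by
    have h3 : 4 ≤ 4 / κ := by
      rw [le_div_iff₀ h0]
      linarith
    linarith
  have h4 := Real.log_pos h2
  have h5 := Real.log_pos (show (1 : ℝ) < 2 by norm_num)
  positivity

private theorem ch_self (x : OnePoint ℂ) : chord x x = 0 := by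
  induction x using OnePoint.rec with
  | infty => rfl
  | coe z =>
    show ‖z - z‖ / _ = 0
    rw [sub_self, norm_zero, zero_div]

private theorem pt_fin {κ : ℝ} (hκ : 0 < κ) {P U : Set (OnePoint ℂ)} (h : UPd κ P) (hU : IsOpen U) (hne : (P ∩ U).Nonempty) :
    ∃ x0 : ℂ, (x0 : OnePoint ℂ) ∈ P ∩ U := by
  obtain ⟨x, hx, hxU⟩ := hne
  by_cases hi : x = OnePoint.infty
  · obtain ⟨r0, hr0, hup⟩ := h
    obtain ⟨r1, hr1, hr1U⟩ := Pool.Agent.H44.RC.ch_nhds (hU.mem_nhds hxU)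
    have hm : 0 < min r0 r1 := lt_min hr0 hr1
    obtain ⟨y, hy, h1, h2⟩ := hup x hx (min r0 r1 / 2) (by positivity) (by
      have := min_le_left r0 r1
      linarith)
    have h3 : chord x y < r1 := by
      have := min_le_right r0 r1
      linarith
    have h4 : y ≠ OnePoint.infty := by
      rintro rfl
      rw [hi, ch_self] at h1
      have h5 : 0 < κ * (min r0 r1 / 2) := by positivity
      linarith
    obtain ⟨z, hz⟩ := OnePoint.ne_infty_iff_exists.1 h4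
    exact ⟨z, by rw [hz]; exact ⟨hy, hr1U h3⟩⟩
  · obtain ⟨z, hz⟩ := OnePoint.ne_infty_iff_exists.1 hi
    exact ⟨z, by rw [hz]; exact ⟨hx, hxU⟩⟩

/-- chordal and euclidean distance near a point of the plane -/
private theorem ch_near (x0 : ℂ) : ∃ δ : ℝ, 0 < δ ∧ ∀ z w : ℂ, ‖z - x0‖ < δ → ‖w - x0‖ < δ →
    (16 / 25) * (1 + ‖x0‖ ^ 2) * chord (z : OnePoint ℂ) (w : OnePoint ℂ) ≤ ‖z - w‖ ∧
      ‖z - w‖ ≤ (36 / 25) * (1 + ‖x0‖ ^ 2) * chord (z : OnePoint ℂ) (w : OnePoint ℂ) := by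
  obtain ⟨q, hq⟩ : ∃ q : ℝ, q = √(1 + ‖x0‖ ^ 2) := ⟨_, rfl⟩
  have hq0 : 0 < q := by
    rw [hq]
    exact Real.sqrt_pos.2 (by positivity)
  have hqq : q * q = 1 + ‖x0‖ ^ 2 := by
    rw [hq]
    exact Real.mul_self_sqrt (by positivity)
  have hc : ContinuousAt (fun z : ℂ => √(1 + ‖z‖ ^ 2)) x0 := by fun_prop
  have h1 : ∀ᶠ z in 𝓝 x0, 4 / 5 * q < √(1 + ‖z‖ ^ 2) :=
    hc.eventually (lt_mem_nhds (by show 4 / 5 * q < √(1 + ‖x0‖ ^ 2); rw [← hq]; linarith))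
  have h2 : ∀ᶠ z in 𝓝 x0, √(1 + ‖z‖ ^ 2) < 6 / 5 * q :=
    hc.eventually (gt_mem_nhds (by show √(1 + ‖x0‖ ^ 2) < 6 / 5 * q; rw [← hq]; linarith))
  obtain ⟨δ, hδ, hall⟩ := Metric.eventually_nhds_iff_ball.1 (h1.and h2)
  refine ⟨δ, hδ, fun z w hz hw => ?_⟩
  obtain ⟨z1, z2⟩ := hall z (by rw [mem_ball_iff_norm]; exact hz)
  obtain ⟨w1, w2⟩ := hall w (by rw [mem_ball_iff_norm]; exact hw)
  have h3 : chord (z : OnePoint ℂ) (w : OnePoint ℂ) = ‖z - w‖ / (√(1 + ‖z‖ ^ 2) * √(1 + ‖w‖ ^ 2)) := rfl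
  generalize √(1 + ‖z‖ ^ 2) = A at *
  generalize √(1 + ‖w‖ ^ 2) = B at *
  have hA : 0 < A := lt_trans (by positivity) z1
  have hB : 0 < B := lt_trans (by positivity) w1
  have h4 : ‖z - w‖ = A * B * chord (z : OnePoint ℂ) (w : OnePoint ℂ) := by
    rw [h3]
    field_simp
  have h5 : 0 ≤ chord (z : OnePoint ℂ) (w : OnePoint ℂ) := by
    rw [h3]
    positivity
  rw [h4, ← hqq]
  refine ⟨mul_le_mul_of_nonneg_right ?_ h5, mul_le_mul_of_nonneg_right ?_ h5⟩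
  · have := mul_le_mul z1.le w1.le (by positivity) hA.le
    linarith
  · have := mul_le_mul z2.le w2.le hB.le (by positivity)
    linarith

theorem dims_up {κ : ℝ} (hκ : 0 < κ) {P U : Set (OnePoint ℂ)} (hP : IsClosed P) (h : UPd κ P) (hU : IsOpen U)
    (hne : (P ∩ U).Nonempty) : ENNReal.ofReal (sd κ) ≤ dimH {z : ℂ | (z : OnePoint ℂ) ∈ P ∩ U} := by
  obtain ⟨x0, hx0, hx0U⟩ := pt_fin hκ h hU hne
  obtain ⟨δ1, hδ1, hnear⟩ := ch_near x0
  obtain ⟨δ2, hδ2, hball⟩ := Metric.isOpen_iff.1 (hU.preimage OnePoint.continuous_coe) x0 hx0U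
  obtain ⟨r0, hr0, hup⟩ := h
  have hcl : IsClosed {z : ℂ | (z : OnePoint ℂ) ∈ P} := hP.preimage OnePoint.continuous_coe
  have hUn : ((↑) : ℂ → OnePoint ℂ) '' ball x0 δ1 ∈ 𝓝 (x0 : OnePoint ℂ) :=
    (OnePoint.isOpenEmbedding_coe.isOpenMap _ isOpen_ball).mem_nhds
      (mem_image_of_mem _ (mem_ball_self hδ1))
  obtain ⟨r1, hr1, hr1U⟩ := Pool.Agent.H44.RC.ch_nhds hUn
  obtain ⟨m, hm⟩ : ∃ m : ℝ, m = 1 + ‖x0‖ ^ 2 := ⟨_, rfl⟩
  have hm1 : 1 ≤ m := by
    rw [hm]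
    nlinarith [sq_nonneg ‖x0‖]
  rw [← hm] at hnear
  have hκ1 : κ < 1 := by
    obtain ⟨y, -, h1, h2⟩ := hup _ hx0 (r0 / 2) (by positivity) (by linarith)
    have h3 : κ * (r0 / 2) < 1 * (r0 / 2) := by linarith
    exact lt_of_mul_lt_mul_right h3 (by positivity)
  obtain ⟨ρ0, hρ⟩ : ∃ ρ0 : ℝ, ρ0 = min (min (δ1 / 2) (δ2 / 2)) (min (r1 / 4) (r0 / 2)) := ⟨_, rfl⟩
  have hρ0 : 0 < ρ0 := by
    rw [hρ]
    positivity
  have k1 : ρ0 ≤ δ1 / 2 := by
    rw [hρ]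
    exact (min_le_left _ _).trans (min_le_left _ _)
  have k2 : ρ0 ≤ δ2 / 2 := by
    rw [hρ]
    exact (min_le_left _ _).trans (min_le_right _ _)
  have k3 : ρ0 ≤ r1 / 4 := by
    rw [hρ]
    exact (min_le_right _ _).trans (min_le_left _ _)
  have k4 : ρ0 ≤ r0 / 2 := by
    rw [hρ]
    exact (min_le_right _ _).trans (min_le_right _ _)
  have h4κ : 1 < 4 / κ := by
    rw [lt_div_iff₀ hκ]
    linarith
  have hd : UPn {z : ℂ | (z : OnePoint ℂ) ∈ P} x0 (4 / κ) ρ0 := by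
    intro x hx hxx ρ hρ1 hρ2
    rw [dist_eq_norm] at hxx
    have hρm : ρ / (36 / 25 * m) ≤ ρ := div_le_self hρ1.le (by linarith)
    obtain ⟨y, hy, h1, h2⟩ := hup x hx (ρ / (36 / 25 * m)) (by positivity) (by linarith)
    have h3 : chord (x0 : OnePoint ℂ) y < r1 := by
      refine (Pool.Agent.H44.RC.ch_tri _ (x : OnePoint ℂ) _).trans_lt ?_
      have h4 : chord (x0 : OnePoint ℂ) (x : OnePoint ℂ) ≤ ‖x0 - x‖ := Pool.Agent.H57.CF.upf_le x0 x
      rw [norm_sub_rev] at h4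
      linarith
    obtain ⟨w, hw, rfl⟩ := hr1U h3
    obtain ⟨h5, h6⟩ := hnear x w (by linarith) (mem_ball_iff_norm.1 hw)
    refine ⟨w, hy, ?_, ?_⟩
    · rw [dist_eq_norm, norm_sub_rev]
      refine le_trans ?_ h5
      have h7 : 16 / 25 * m * (κ * (ρ / (36 / 25 * m))) ≤ 16 / 25 * m * chord (x : OnePoint ℂ) (w : OnePoint ℂ) :=
        mul_le_mul_of_nonneg_left h1 (by positivity)
      refine le_trans ?_ h7
      have h8 : 16 / 25 * m * (κ * (ρ / (36 / 25 * m))) = 4 / 9 * (κ * ρ) := by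
        field_simp
        norm_num
      have h9 : ρ / (4 / κ) = 1 / 4 * (κ * ρ) := by
        field_simp
      rw [h8, h9]
      have : 0 < κ * ρ := by positivity
      linarith
    · rw [dist_eq_norm, norm_sub_rev]
      refine h6.trans ?_
      have h7 : 36 / 25 * m * chord (x : OnePoint ℂ) (w : OnePoint ℂ) ≤ 36 / 25 * m * (ρ / (36 / 25 * m)) :=
        mul_le_mul_of_nonneg_left h2.le (by positivity)
      refine h7.trans (le_of_eq ?_)
      field_simp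
  have h1 := dim_s hcl hx0 h4κ hρ0 hd
  refine h1.trans (dimH_mono ?_)
  rintro z ⟨hz, hzb⟩
  refine ⟨hz, hball (closedBall_subset_ball ?_ hzb)⟩
  linarith

end Pool.Agent.H83.BE
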