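import Pool.Agent.H83.BE.LOCU

/-!
# THEOREM BEAU: the frame at a fold, with universal constants

As `H18/UP/FRM` (the proof is a copy), with the absolute constant `AU` and `‖γ' y‖ / kp c` in the place of `‖γ' y‖` in the new radii.
-/


set_option autoImplicit false

open Filter Topology Polynomial Metric Set MeasureTheory

namespace Pool.Agent.H83.BE

open Pool.Agent.H44.Fatou (rat rat_continuous)
open Pool.Agent.H80.AJ (Br KK one_le_KK KK_pos distort distort_lip deriv_ne univ_cover)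
open Pool.Agent.H32.BT (IsCrit)
open Pool.Agent.H61.TT Pool.Agent.H57.CP Pool.Agent.H3.NC Pool.Agent.H18.UP
open Pool.Agent.H39.BE (kp)

variable {d : ℕ} {a b : Polynomial ℂ} {J : Set ℂ} {δ0 : ℝ}

private theorem lt_sqrt_of {x X : ℝ} (hx : 0 ≤ x) : x < √X ↔ x ^ 2 < X := Real.lt_sqrt hx

private theorem pre_one (a b : Polynomial ℂ) (z : ℂ) : z ∈ (pre a b)^[1] univ ↔ b.eval z ≠ 0 := by
  rw [Function.iterate_one]
  unfold pre
  simp

/-- the orbit of `z` when `gg z = γ z'` -/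
private theorem frm_orb (h : Geo d a b J δ0) {i n : ℕ} {q : ℂ} {r : ℝ} {γ : ℂ → ℂ} (hq : ball q r ⊆ NJ J δ0)
    (hγ : Br (rat a b) n q r (γ q) γ) {z z' : ℂ} (hb : b.eval z ≠ 0) (hz' : z' ∈ ball q r) (he : γ z' = gg a b z) :
    (∀ S : Set ℂ, z' ∈ (pre a b)^[i] S → z ∈ (pre a b)^[i + n + 1] S) ∧ (gg a b)^[i + n + 1] z = (gg a b)^[i] z' := by
  have h1 := b_pre h hq hγ hz'
  have h2 := b_gg h hq hγ hz'
  rw [he] at h1 h2
  constructor
  · intro S hS
    have e1 : i + n + 1 = 1 + (n + i) := by ring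
    rw [e1, pre_add]
    refine ⟨(pre_one a b z).2 hb, ?_⟩
    rw [Function.iterate_one, pre_add]
    refine ⟨pre_mono (subset_univ _) h1, ?_⟩
    rw [h2]
    exact hS
  · rw [Function.iterate_succ_apply, Function.iterate_add_apply, h2]

/-- the absolute constant of the frames -/
noncomputable def AU : ℝ := 256 * KK * 4

theorem AU_ge : 256 ≤ AU := by
  have hK1 := one_le_KK
  unfold AU
  linarith

theorem frm_u (h : Geo d a b J δ0) : ∃ δ1 : ℝ, 0 < δ1 ∧ ∀ (c0 : ℂ) (e0 t0 r0 : ℝ) (i n : ℕ) (q c y : ℂ) (e t s r : ℝ) (γ : ℂ → ℂ),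
    PJ a b J ∩ ball c0 r0 ⊆ closedBall c0 e0 → Fr a b c0 e0 t0 r0 i q e t s r → ball q r ⊆ NJ J δ0 →
    AU ^ 2 * e ≤ t → AU ^ 2 * s ≤ r → Br (rat a b) n q r (γ q) γ → c ∈ J → Cr a b c → y ∈ closedBall q e → γ y = gg a b c →
    r * ‖deriv γ y‖ ≤ δ1 → 0 < ‖deriv γ y‖ / kp a b c ∧
    Fr a b c0 e0 t0 r0 (i + n + 1) c (√(AU * (‖deriv γ y‖ / kp a b c) * e)) (√((‖deriv γ y‖ / kp a b c) * t / AU))
      (√(AU * (‖deriv γ y‖ / kp a b c) * s)) (√((‖deriv γ y‖ / kp a b c) * r / AU)) ∧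
    (∀ x ∈ ball c (√((‖deriv γ y‖ / kp a b c) * r / AU)), ∃ x' ∈ ball q r, γ x' = gg a b x) ∧
    (∀ x ∈ ball c (√((‖deriv γ y‖ / kp a b c) * t / AU)), ∃ x' ∈ ball q t, γ x' = gg a b x) ∧
    (∀ z x : ℂ, x ∈ ball q s → ‖z - c‖ ≤ δ1 → gg a b z = γ x → z ∈ ball c (√(AU * (‖deriv γ y‖ / kp a b c) * s))) := by
  obtain ⟨δ', hδ'0, hδ'1, hloc⟩ := loc_u h
  obtain ⟨κ0, κ1, hκ0, hκb⟩ := kp_bds h
  obtain ⟨A0, hA0'⟩ : ∃ A0 : ℝ, A0 = 4 := ⟨_, rfl⟩
  have hA0 : 1 ≤ A0 := by rw [hA0']; norm_num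
  have hK1 := one_le_KK
  have hK0 := KK_pos
  obtain ⟨A, hA⟩ : ∃ A : ℝ, A = 256 * KK * A0 := ⟨_, rfl⟩
  have hAU : AU = A := by
    rw [hA, hA0']
    rfl
  rw [hAU]
  have hKA : 1 ≤ KK * A0 := one_le_mul_of_one_le_of_one_le hK1 hA0
  have hA256 : 256 ≤ A := by
    rw [hA, mul_assoc]
    linarith
  have hA0A : 256 * A0 ≤ A := by
    rw [hA]
    nlinarith
  have hApos : 0 < A := by linarith
  have hA2 : 4 ≤ A ^ 2 := by nlinarith
  refine ⟨min (κ0 * (δ' ^ 2 / 2)) (δ' / 2), by positivity, ?_⟩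
  intro c0 e0 t0 r0 i n q c y e t s r γ hPJ hFr hNJ hte hsr hγ hc hcr hy hyv hβδ'
  obtain ⟨κ, hκdef⟩ : ∃ κ : ℝ, κ = kp a b c := ⟨_, rfl⟩
  have hκp : 0 < κ := by
    rw [hκdef]
    exact hκ0.trans_le (hκb c hc hcr).1
  have hκκ : κ0 ≤ κ := by
    rw [hκdef]
    exact (hκb c hc hcr).1
  rw [← hκdef]
  obtain ⟨β, hβ⟩ : ∃ β : ℝ, β = ‖deriv γ y‖ / κ := ⟨_, rfl⟩
  have hβ' : ‖deriv γ y‖ = κ * β := by
    rw [hβ]
    field_simp
  rw [← hβ]
  obtain ⟨hl1, _, _⟩ := hloc c hc hcr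
  rw [← hκdef] at hl1
  have he := hFr.he
  have het := hFr.et
  have hts := hFr.ts
  have hsr' := hFr.sr
  have hs0 : 0 < s := by linarith
  have ht0 : 0 < t := by linarith
  have hr0 : 0 < r := by linarith
  have hs4 : 4 * s ≤ r := by nlinarith
  have he4 : 4 * e ≤ t := by nlinarith
  have hyq : ‖y - q‖ ≤ e := by
    rw [mem_closedBall, dist_eq_norm] at hy
    exact hy
  have hinj : InjOn γ (ball q r) := by
    intro u hu u' hu' h12
    have h1 := hγ.inv u hu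
    have h2 := hγ.inv u' hu'
    rw [h12, h2] at h1
    exact (OnePoint.coe_injective h1).symm
  have hy2 : y ∈ closedBall q (r / 2) := by
    rw [mem_closedBall, dist_eq_norm]
    linarith
  have hyr : y ∈ ball q r := by
    rw [mem_ball, dist_eq_norm]
    linarith
  have hβ0 : 0 < β := by
    rw [hβ]
    exact div_pos (deriv_ne hr0 hγ.diff hinj hy2) hκp
  have hβδ : β * r ≤ δ' ^ 2 / 2 := by
    have h1 := hβδ'.trans (min_le_left _ _)
    rw [hβ'] at h1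
    have h2 : κ0 * (δ' ^ 2 / 2) ≤ κ * (δ' ^ 2 / 2) := mul_le_mul_of_nonneg_right hκκ (by positivity)
    have h3 : κ * (β * r) ≤ κ * (δ' ^ 2 / 2) := by
      calc κ * (β * r) = r * (κ * β) := by ring
        _ ≤ _ := h1
        _ ≤ _ := h2
    exact le_of_mul_le_mul_left h3 hκp
  -- covering
  have cov : ∀ τ : ℝ, 0 < τ → τ ≤ r / 2 → ∀ z : ℂ, ‖z - c‖ ^ 2 < τ * β / (8 * A0 * 4) → ‖z - c‖ < δ' →
      b.eval z ≠ 0 ∧ ∃ z' ∈ ball q r, ‖z' - y‖ < τ ∧ γ z' = gg a b z := by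
    intro τ hτ hτr z hz hzδ
    obtain ⟨h1, _, h3⟩ := hl1 z (by rw [mem_ball, dist_eq_norm]; exact hzδ)
    refine ⟨h1, ?_⟩
    have hsub : ball y τ ⊆ ball q r := by
      apply ball_subset_ball'
      rw [dist_eq_norm]
      linarith
    have hcv := univ_cover hτ (hγ.diff.mono hsub) (hinj.mono hsub)
    rw [hβ', hyv] at hcv
    have h4 : gg a b z ∈ ball (gg a b c) (τ * (κ * β) / 16) := by
      rw [mem_ball, dist_eq_norm]
      refine h3.trans_lt ?_
      have h5 : 0 < τ * β := by positivity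
      have h6 : ‖z - c‖ ^ 2 < τ * β / 16 := by
        refine hz.trans ?_
        rw [div_lt_div_iff₀ (by positivity) (by norm_num)]
        nlinarith
      calc κ * ‖z - c‖ ^ 2 < κ * (τ * β / 16) := mul_lt_mul_of_pos_left h6 hκp
        _ = τ * (κ * β) / 16 := by ring
    obtain ⟨z', hz', hz'e⟩ := hcv h4
    refine ⟨z', hsub hz', ?_, hz'e⟩
    rw [mem_ball, dist_eq_norm] at hz'
    exact hz'
  have hrδ : √(β * r / A) ≤ δ' := by
    rw [Real.sqrt_le_left hδ'0.le, div_le_iff₀ hApos]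
    have h1 : β * r ≤ δ' ^ 2 / 2 := hβδ
    have h2 : 0 < δ' ^ 2 := by positivity
    nlinarith
  have hcmp : ∀ τ : ℝ, 0 < τ → β * τ / A ≤ (τ / 2) * β / (8 * A0 * 4) := by
    intro τ hτ
    rw [div_le_div_iff₀ hApos (by positivity)]
    have h5 : 0 < τ * β := by positivity
    nlinarith
  have hrad : ∀ z ∈ ball c (√(β * r / A)), b.eval z ≠ 0 ∧ ∃ z' ∈ ball q r, γ z' = gg a b z := by
    intro z hz
    rw [mem_ball, dist_eq_norm] at hz
    obtain ⟨h1, z', h2, _, h3⟩ := cov (r / 2) (by linarith) le_rfl z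
      (((lt_sqrt_of (norm_nonneg _)).1 hz).trans_le (hcmp r hr0)) (hz.trans_le hrδ)
    exact ⟨h1, z', h2, h3⟩
  have htr : √(β * t / A) ≤ √(β * r / A) := by
    apply Real.sqrt_le_sqrt
    apply div_le_div_of_nonneg_right _ hApos.le
    apply mul_le_mul_of_nonneg_left _ hβ0.le
    linarith
  have hrat : ∀ z ∈ ball c (√(β * t / A)), b.eval z ≠ 0 ∧ ∃ z' ∈ ball q r, z' ∈ ball q t ∧ γ z' = gg a b z := by
    intro z hz
    rw [mem_ball, dist_eq_norm] at hz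
    obtain ⟨h1, z', h2, h4, h3⟩ := cov (t / 2) (by linarith) (by linarith) z
      (((lt_sqrt_of (norm_nonneg _)).1 hz).trans_le (hcmp t ht0)) ((hz.trans_le htr).trans_le hrδ)
    refine ⟨h1, z', h2, ?_, h3⟩
    rw [mem_ball, dist_eq_norm]
    have h5 : z' - q = (z' - y) + (y - q) := by ring
    rw [h5]
    refine (norm_add_le _ _).trans_lt ?_
    linarith
  -- distortion
  have dis : ∀ z x : ℂ, x ∈ closedBall q s → ‖z - c‖ < δ' → gg a b z = γ x → ‖z - c‖ ^ 2 ≤ A0 * (KK * β * ‖x - y‖) := by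
    intro z x hx hz hzx
    obtain ⟨_, h2, _⟩ := hl1 z (by rw [mem_ball, dist_eq_norm]; exact hz)
    have hx2 : x ∈ closedBall q (r / 2) := closedBall_subset_closedBall (by linarith) hx
    have h3 : ‖gg a b z - gg a b c‖ ≤ KK * (κ * β) * ‖x - y‖ := by
      rw [hzx, ← hyv, ← hβ']
      exact distort_lip hr0 hγ.diff hinj hx2 hy2 hy2
    have h4 : κ * ‖z - c‖ ^ 2 ≤ κ * (A0 * (KK * β * ‖x - y‖)) := by
      rw [hA0']
      calc κ * ‖z - c‖ ^ 2 ≤ 4 * ‖gg a b z - gg a b c‖ := h2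
        _ ≤ 4 * (KK * (κ * β) * ‖x - y‖) := mul_le_mul_of_nonneg_left h3 (by norm_num)
        _ = _ := by ring
    exact le_of_mul_le_mul_left h4 hκp
  have hfin : ∀ ρ : ℝ, 0 < ρ → A0 * (KK * β * (2 * ρ)) ≤ A * β * ρ := by
    intro ρ hρ
    rw [hA]
    have h1 : 0 < KK * A0 * β * ρ := by positivity
    nlinarith
  have hds : ∀ z x : ℂ, x ∈ ball q s → ‖z - c‖ < δ' → gg a b z = γ x → z ∈ ball c (√(A * β * s)) := by
    intro z x hx hz hzx
    rw [mem_ball, dist_eq_norm, lt_sqrt_of (norm_nonneg _)]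
    refine (dis z x (ball_subset_closedBall hx) hz hzx).trans_lt (lt_of_lt_of_le ?_ (hfin s hs0))
    have h1 : ‖x - y‖ < 2 * s := by
      rw [mem_ball, dist_eq_norm] at hx
      have h2 : x - y = (x - q) - (y - q) := by ring
      rw [h2]
      refine (norm_sub_le _ _).trans_lt ?_
      linarith
    have h2 : 0 < A0 := by linarith
    apply mul_lt_mul_of_pos_left _ h2
    apply mul_lt_mul_of_pos_left h1
    positivity
  have hcc : c ∈ ball c (√(β * r / A)) := mem_ball_self (Real.sqrt_pos.2 (by positivity))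
  refine ⟨hβ0, ⟨?_, ?_, ?_, ?_, ?_, ?_, ?_, ?_, ?_⟩, ?_, ?_, ?_⟩
  · exact Real.sqrt_pos.2 (by positivity)
  · apply Real.sqrt_le_sqrt
    rw [le_div_iff₀ hApos]
    nlinarith
  · apply Real.sqrt_le_sqrt
    rw [div_le_iff₀ hApos]
    have h1 : β * t ≤ β * s := mul_le_mul_of_nonneg_left hts hβ0.le
    have h2 : 0 < β * s := by positivity
    nlinarith
  · apply Real.sqrt_le_sqrt
    rw [le_div_iff₀ hApos]
    nlinarith
  · intro z hz
    obtain ⟨h1, z', h2, h3⟩ := hrad z hz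
    exact (frm_orb (i := i) h hNJ hγ h1 h2 h3).1 _ (hFr.map z' h2)
  · intro z hz
    obtain ⟨h1, z', h2, h4, h3⟩ := hrat z hz
    rw [(frm_orb (i := i) h hNJ hγ h1 h2 h3).2]
    exact hFr.inn z' h4
  · intro z hz hz2
    obtain ⟨h1, z', h2, h3⟩ := hrad z hz
    rw [(frm_orb (i := i) h hNJ hγ h1 h2 h3).2] at hz2
    rw [mem_ball, dist_eq_norm] at hz
    exact hds z z' (hFr.out z' h2 hz2) (hz.trans_le hrδ) h3.symm
  · intro z hz hz2
    obtain ⟨h1, z', h2, h3⟩ := hrad z hz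
    rw [(frm_orb (i := i) h hNJ hγ h1 h2 h3).2] at hz2
    have h4 := hFr.eps z' h2 hz2
    rw [mem_ball, dist_eq_norm] at hz
    have h5 := dis z z' (closedBall_subset_closedBall (by linarith) h4) (hz.trans_le hrδ) h3.symm
    have h6 : ‖z' - y‖ ≤ 2 * e := by
      rw [mem_closedBall, dist_eq_norm] at h4
      have h7 : z' - y = (z' - q) - (y - q) := by ring
      rw [h7]
      refine (norm_sub_le _ _).trans ?_
      linarith
    have h8 : A0 * (KK * β * ‖z' - y‖) ≤ A0 * (KK * β * (2 * e)) := by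
      apply mul_le_mul_of_nonneg_left _ (by linarith)
      apply mul_le_mul_of_nonneg_left h6
      positivity
    rw [mem_closedBall, dist_eq_norm]
    exact Real.le_sqrt_of_sq_le (h5.trans (h8.trans (hfin e he)))
  · have h1 : b.eval c ≠ 0 := hcr.1
    obtain ⟨h2, h3⟩ := frm_orb (i := i) h hNJ hγ h1 hyr hyv
    have h4 := hFr.map y hyr
    have h5 : (gg a b)^[i] y ∈ ball c0 r0 := by
      have h6 := (pre_add (n := i) (m := 0) (z := y) (S := ball c0 r0) (a := a) (b := b)).1 h4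
      exact h6.2
    have h7 := p_cr (a := a) (b := b) hc hcr (n := i + n + 1) (by omega) (pre_mono (subset_univ _) (h2 _ h4))
    rw [h3] at h7 ⊢
    exact hPJ ⟨h7, h5⟩
  · intro x hx
    obtain ⟨_, z', h2, h3⟩ := hrad x hx
    exact ⟨z', h2, h3⟩
  · intro x hx
    obtain ⟨_, z', _, h4, h3⟩ := hrat x hx
    exact ⟨z', h4, h3⟩
  · intro z x hx hz hzx
    refine hds z x hx (hz.trans_lt ?_) hzx
    have h1 := min_le_right (κ0 * (δ' ^ 2 / 2)) (δ' / 2)
    linarith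

end Pool.Agent.H83.BE
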