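import Pool.Agent.H18.UP.STP
import Pool.Agent.H18.UP.NTW
import Pool.Agent.H18.UP.CHN
import Pool.Agent.H83.BE.FRMU
import Pool.Agent.H61.TT.Fib

/-!
# THEOREM BEAU: LEMMA PB, the pull back along an orbit, with universal constants

As `H18/UP/CHN` (the proof is a copy), with `frm_u` in the place of `frm`: `K = AU ^ 2` is absolute, `L1` and `M0` do not depend on the map (only on the number `N ≤ 2 d` of the critical points), only `C1` and `r1` do. `Chq` is `Chs` with the sharp bound `‖γ' y‖ t2 ≤ B t1 ^ 2` for folds at `c0`, `B = AU * kp c0`.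
-/


set_option autoImplicit false

open Filter Topology Polynomial Metric Set MeasureTheory

namespace Pool.Agent.H83.BE

open Pool.Agent.H44.Fatou (rat rat_continuous)
open Pool.Agent.H80.AJ (Br KK one_le_KK KK_pos distort distort_lip deriv_ne univ_cover)
open Pool.Agent.H32.BT (IsCrit)
open Pool.Agent.H61.TT Pool.Agent.H57.CP Pool.Agent.H3.NC Pool.Agent.H18.UP
open Pool.Agent.H39.BE (kp)

variable {d : ℕ} {a b : Polynomial ℂ} {J : Set ℂ} {δ0 : ℝ}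

/-- `Chn` with the sharp bound for folds at `c0` -/
def Chm (a b : Polynomial ℂ) (J : Set ℂ) (c0 : ℂ) (e0 t0 r0 M L K C1 B δ : ℝ) (m : ℕ) (z : ℂ) : Prop :=
  (∃ ψ : ℂ → ℂ, Br (rat a b) m c0 r0 (ψ c0) ψ ∧ ψ ((gg a b)^[m] z) = z) ∨
  ∃ (k1 k2 : ℕ) (q1 q2 y : ℂ) (e1 t1 s1 r1 e2 t2 s2 r2 : ℝ) (ψ γ : ℂ → ℂ),
    Fol a b J M L K C1 δ k1 k2 q1 q2 y t1 s1 r1 e2 t2 s2 r2 ψ γ ∧ k2 ≤ m ∧
    Fr a b c0 e0 t0 r0 (m - k1) q1 e1 t1 s1 r1 ∧ M * e1 ≤ t1 ∧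
    Fr a b c0 e0 t0 r0 (m - k2) q2 e2 t2 s2 r2 ∧
    (gg a b)^[k1] z ∈ ball q1 s1 ∧ ψ ((gg a b)^[k1] z) = z ∧
    (k2 = m → q2 = c0 ∧ t2 = t0) ∧ (k1 = 0 → q1 = c0 → r1 ^ 2 ≤ 256 * e0 * r0) ∧
    (q1 = c0 → ‖deriv γ y‖ * t2 ≤ B * t1 ^ 2)

/-- all pull backs of the root have the data of `Chm` -/
def Chq (a b : Polynomial ℂ) (J : Set ℂ) (c0 : ℂ) (e0 t0 r0 M L K C1 B δ : ℝ) : Prop := ∀ (m : ℕ) (z : ℂ), 0 < m →
  z ∈ (pre a b)^[m] (ball c0 (2 * t0)) → (∀ j, 0 < j → j < m → t0 ≤ ‖(gg a b)^[j] z - c0‖) →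
  Chm a b J c0 e0 t0 r0 M L K C1 B δ m z

theorem chq_chs {c0 : ℂ} {e0 t0 r0 M L K C1 B δ : ℝ} (h : Chq a b J c0 e0 t0 r0 M L K C1 B δ) :
    Chs a b J c0 e0 t0 r0 M L K C1 δ := by
  intro m z hm hz hj
  rcases h m z hm hz hj with h1 | ⟨k1, k2, q1, q2, y, e1, t1, s1, r1, e2, t2, s2, r2, ψ, γ, hF, hk, hf1, he, hf2, h1, h2, h3, h4, -⟩
  · exact Or.inl h1
  · exact Or.inr ⟨k1, k2, q1, q2, y, e1, t1, s1, r1, e2, t2, s2, r2, ψ, γ, hF, hk, hf1, he, hf2, h1, h2, h3, h4⟩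

theorem cr_card (h : Geo d a b J δ0) (S : Finset ℂ) (hS : ∀ c ∈ S, c ∈ J ∧ Cr a b c) : S.card ≤ 2 * d := by
  classical
  have hw : ww a b ≠ 0 := ww_ne h.rt
  have ha : a.natDegree ≤ d := h.rt.deg ▸ le_max_left _ _
  have hb : b.natDegree ≤ d := h.rt.deg ▸ le_max_right _ _
  have h1 : (ww a b).natDegree ≤ 2 * d := by
    unfold ww
    refine (natDegree_sub_le _ _).trans (max_le ?_ ?_)
    · refine natDegree_mul_le.trans ?_
      have := natDegree_derivative_le a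
      omega
    · refine natDegree_mul_le.trans ?_
      have := natDegree_derivative_le b
      omega
  have h2 : S ⊆ (ww a b).roots.toFinset := by
    intro c hc
    rw [Multiset.mem_toFinset, mem_roots hw]
    exact (hS c hc).2.2
  exact (Finset.card_le_card h2).trans ((Multiset.toFinset_card_le _).trans ((card_roots' _).trans h1))

private theorem pre_sp {n : ℕ} {z : ℂ} {S : Set ℂ} : z ∈ (pre a b)^[n] S ↔
    z ∈ (pre a b)^[n] univ ∧ (gg a b)^[n] z ∈ S := by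
  have h1 := pre_add (a := a) (b := b) (n := n) (m := 0) (z := z) (S := S)
  simpa using h1

private theorem pre_ne {n : ℕ} {z : ℂ} {S : Set ℂ} (hn : 0 < n) (hz : z ∈ (pre a b)^[n] S) :
    b.eval z ≠ 0 := by
  obtain ⟨k, rfl⟩ : ∃ k, n = k + 1 := ⟨n - 1, by omega⟩
  rw [Function.iterate_succ_apply'] at hz
  exact hz.1

private theorem pre_cons {n k : ℕ} (hk : k = n + 1) {z : ℂ} {S : Set ℂ} (hb : b.eval z ≠ 0)
    (hz : gg a b z ∈ (pre a b)^[n] S) : z ∈ (pre a b)^[k] S := by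
  subst hk
  rw [Function.iterate_succ_apply']
  exact ⟨hb, hz⟩

private theorem pre_trans {n k l : ℕ} (hl : l = n + k) {z x : ℂ} {S : Set ℂ} (hz : z ∈ (pre a b)^[n] {x})
    (hx : x ∈ (pre a b)^[k] S) : z ∈ (pre a b)^[l] S := by
  subst hl
  rw [Function.iterate_add_apply]
  exact pre_mono (singleton_subset_iff.2 hx) hz

private theorem sq_le {X u v : ℝ} (hX : 0 ≤ X) (h : X ^ 2 * u ≤ v) : X * √u ≤ √v := by
  have h1 : X * √u = √(X ^ 2 * u) := by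
    rw [Real.sqrt_mul (sq_nonneg X), Real.sqrt_sq hX]
  rw [h1]
  exact Real.sqrt_le_sqrt h

/-- the quality of the new frame -/
private theorem fold_qu {A β K Λ X Y e t s r : ℝ} (hA : 2 ≤ A) (hK : K = A ^ 2) (hΛ : 1 ≤ Λ)
    (hX : 0 ≤ X) (hY : 0 ≤ Y) (hβ : 0 < β) (hs : 0 ≤ s)
    (h : Qu ((A * X) ^ 2) ((A * Y) ^ 2) K Λ e t s r) :
    Qu X Y K Λ (√(A * β * e)) (√(β * t / A)) (√(A * β * s)) (√(β * r / A)) := by
  have hA0 : 0 < A := by linarith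
  have hβA : 0 ≤ β / A := by positivity
  refine ⟨sq_le hX ?_, ?_, sq_le hY ?_, ?_⟩
  · calc X ^ 2 * (A * β * e) = β / A * ((A * X) ^ 2 * e) := by field_simp
      _ ≤ β / A * t := mul_le_mul_of_nonneg_left h.te hβA
      _ = β * t / A := by ring
  · have h1 : √(A * β * s) ≤ √(K ^ 2 * (β * t / A)) := by
      refine Real.sqrt_le_sqrt ?_
      calc A * β * s ≤ A * β * (K * t) := mul_le_mul_of_nonneg_left h.st (by positivity)
        _ = K ^ 2 * (β * t / A) := by rw [hK]; field_simp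
    rwa [Real.sqrt_mul (sq_nonneg K), Real.sqrt_sq (by rw [hK]; positivity)] at h1
  · calc Y ^ 2 * (A * β * s) = β / A * ((A * Y) ^ 2 * s) := by field_simp
      _ ≤ β / A * r := mul_le_mul_of_nonneg_left h.rs hβA
      _ = β * r / A := by ring
  · have h1 : √(β * r / A) ≤ √(Λ ^ 2 * (A * β * s)) := by
      refine Real.sqrt_le_sqrt ?_
      have h2 : Λ * s ≤ Λ ^ 2 * A ^ 2 * s := by
        refine mul_le_mul_of_nonneg_right ?_ hs
        have h3 : 1 ≤ Λ * A ^ 2 := by nlinarith [mul_le_mul hΛ (show 1 ≤ A ^ 2 by nlinarith) zero_le_one (by linarith : (0:ℝ) ≤ Λ)]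
        nlinarith
      calc β * r / A = β / A * r := by ring
        _ ≤ β / A * (Λ ^ 2 * A ^ 2 * s) := mul_le_mul_of_nonneg_left (h.up.trans h2) hβA
        _ = Λ ^ 2 * (A * β * s) := by field_simp
    rwa [Real.sqrt_mul (sq_nonneg Λ), Real.sqrt_sq (by linarith)] at h1

/-- a record of a fold at `c` -/
private def Rc (a b : Polynomial ℂ) (c0 : ℂ) (e0 t0 r0 Mf K Λ : ℝ) (m k : ℕ) (q : ℂ) (r : ℝ) (c : ℂ) : Prop :=
  ∃ (kc : ℕ) (ec tc sc rc : ℝ), k ≤ kc ∧ kc < m ∧ Fr a b c0 e0 t0 r0 (m - kc) c ec tc sc rc ∧ Mf * ec ≤ tc ∧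
    sc ≤ K * tc ∧ rc ≤ Λ * sc ∧ ∀ x ∈ ball q r, x ∈ (pre a b)^[kc - k] (ball c rc)

/-- the previous frame -/
private def Pv (a b : Polynomial ℂ) (J : Set ℂ) (c0 : ℂ) (e0 t0 r0 M L K C1 B δ : ℝ) (m k : ℕ) (q : ℂ) (t r : ℝ) : Prop :=
  ∃ (k2 : ℕ) (q2 y : ℂ) (e2 t2 s2 r2 : ℝ) (γ : ℂ → ℂ), k < k2 ∧ k2 ≤ m ∧ q2 ∈ J ∧ Cr a b q2 ∧
    Fr a b c0 e0 t0 r0 (m - k2) q2 e2 t2 s2 r2 ∧ M * e2 ≤ t2 ∧ s2 ≤ K * t2 ∧ L * s2 ≤ r2 ∧ r2 ≤ δ ∧
    Br (rat a b) (k2 - k - 1) q2 r2 (γ q2) γ ∧ y ∈ closedBall q2 e2 ∧ γ y = gg a b q ∧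
    (∀ x ∈ ball q r, ∃ x' ∈ ball q2 r2, γ x' = gg a b x) ∧
    (∀ x ∈ ball q t, ∃ x' ∈ ball q2 t2, γ x' = gg a b x) ∧
    ‖deriv γ y‖ * t2 ≤ C1 * t ^ 2 ∧ (k2 = m → q2 = c0 ∧ t2 = t0) ∧ (k = 0 → q = c0 → r ^ 2 ≤ 256 * e0 * r0) ∧
    (q = c0 → ‖deriv γ y‖ * t2 ≤ B * t ^ 2)

/-- the state of the induction -/
private def St (a b : Polynomial ℂ) (J : Set ℂ) (c0 : ℂ) (e0 t0 r0 M L K C1 B δ Λ Mf : ℝ) (ml ll R : ℕ → ℝ)
    (N m : ℕ) (z : ℂ) (l : ℕ) : Prop :=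
  ∃ (S : Finset ℂ) (p k : ℕ) (q : ℂ) (e t s r : ℝ) (ψ : ℂ → ℂ), p + S.card = N + 1 ∧ (∀ c ∈ S, c ∈ J ∧ Cr a b c) ∧
    l ≤ k ∧ k ≤ m ∧ q ∈ J ∧ Cr a b q ∧ Fr a b c0 e0 t0 r0 (m - k) q e t s r ∧ Qu (ml p) (ll p) K Λ e t s r ∧ r ≤ R p ∧
    (gg a b)^[k] z ∈ ball q s ∧ Br (rat a b) (k - l) q r (ψ q) ψ ∧ ψ ((gg a b)^[k] z) = (gg a b)^[l] z ∧
    (∀ c ∈ S, Rc a b c0 e0 t0 r0 Mf K Λ m k q r c) ∧ (k = m → q = c0 ∧ t = t0) ∧
    ((k = m ∧ q = c0 ∧ r = r0) ∨ Pv a b J c0 e0 t0 r0 M L K C1 B δ m k q t r)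

/-- the constants -/
private structure Cx (a b : Polynomial ℂ) (J : Set ℂ) (δ0 A δ1 κ0 K C1 L δ Λ M Mf : ℝ) (ml ll R : ℕ → ℝ) (N : ℕ) : Prop where
  hA : 2 ≤ A
  hK : K = A ^ 2
  hκ0 : 0 < κ0
  hκ : ∀ c ∈ J, Cr a b c → κ0 ≤ kp a b c
  hC : ∀ c ∈ J, Cr a b c → A * kp a b c ≤ C1
  hδ1 : 0 < δ1
  hΛ : 1 ≤ Λ
  hM : M ≤ Mf
  hMA : A ^ 2 ≤ Mf
  hMK : 64 * K * Λ ≤ Mf
  hM8 : 8 ≤ Mf
  frm : ∀ (c0 : ℂ) (e0 t0 r0 : ℝ) (i n : ℕ) (q c y : ℂ) (e t s r : ℝ) (γ : ℂ → ℂ),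
    PJ a b J ∩ ball c0 r0 ⊆ closedBall c0 e0 → Fr a b c0 e0 t0 r0 i q e t s r → ball q r ⊆ NJ J δ0 →
    A ^ 2 * e ≤ t → A ^ 2 * s ≤ r → Br (rat a b) n q r (γ q) γ → c ∈ J → Cr a b c → y ∈ closedBall q e → γ y = gg a b c →
    r * ‖deriv γ y‖ ≤ δ1 → 0 < (‖deriv γ y‖ / kp a b c) ∧
    Fr a b c0 e0 t0 r0 (i + n + 1) c (√(A * (‖deriv γ y‖ / kp a b c) * e)) (√((‖deriv γ y‖ / kp a b c) * t / A)) (√(A * (‖deriv γ y‖ / kp a b c) * s)) (√((‖deriv γ y‖ / kp a b c) * r / A)) ∧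
    (∀ x ∈ ball c (√((‖deriv γ y‖ / kp a b c) * r / A)), ∃ x' ∈ ball q r, γ x' = gg a b x) ∧
    (∀ x ∈ ball c (√((‖deriv γ y‖ / kp a b c) * t / A)), ∃ x' ∈ ball q t, γ x' = gg a b x) ∧
    (∀ z x : ℂ, x ∈ ball q s → ‖z - c‖ ≤ δ1 → gg a b z = γ x → z ∈ ball c (√(A * (‖deriv γ y‖ / kp a b c) * s)))
  stp : ∀ (n : ℕ) (q : ℂ) (e r : ℝ) (ψ : ℂ → ℂ) (x0 z : ℂ),
    ball q r ⊆ NJ J δ0 → 0 < e → 8 * e ≤ r → r ≤ R 0 → PJ a b J ∩ ball q r ⊆ closedBall q e →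
    Br (rat a b) n q r (ψ q) ψ → x0 ∈ ball q (r / 4) → b.eval z ≠ 0 → gg a b z = ψ x0 →
    (∃ φ : ℂ → ℂ, Br (rat a b) (n + 1) q r (φ q) φ ∧ φ x0 = z) ∨
    ∃ c ∈ J, Cr a b c ∧ ‖z - c‖ < δ1 ∧ ∃ y ∈ closedBall q e, ψ y = gg a b c
  sm : ∀ (p n : ℕ) (q : ℂ) (r : ℝ) (ψ : ℂ → ℂ),
    ball q r ⊆ NJ J δ0 → 0 < r → r ≤ R (p + 1) → Br (rat a b) n q r (ψ q) ψ → ∀ c ∈ J, Cr a b c →
    ∀ y ∈ ball q (r / 4), ψ y = gg a b c → r * ‖deriv ψ y‖ < min δ1 (κ0 * R p ^ 2)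
  Rp : ∀ p, 0 < R p
  R0 : ∀ p, R p ≤ R 0
  Rδ : R 0 ≤ δ
  Rδ0 : R 0 ≤ δ0
  mg : ∀ p, Mf ≤ ml p
  ms : ∀ p, ml (p + 1) = (A * ml p) ^ 2
  lg : ∀ p, L ≤ ll p ∧ A ^ 2 ≤ ll p ∧ 8 ≤ ll p
  ls : ∀ p, ll (p + 1) = (A * ll p) ^ 2
  card : ∀ S : Finset ℂ, (∀ c ∈ S, c ∈ J ∧ Cr a b c) → S.card ≤ N

private theorem step (h : Geo d a b J δ0) {A δ1 κ0 K C1 L δ Λ M Mf : ℝ} {ml ll R : ℕ → ℝ} {N : ℕ}
    (hx : Cx a b J δ0 A δ1 κ0 K C1 L δ Λ M Mf ml ll R N) {c0 : ℂ} {e0 t0 r0 B : ℝ} (hB : A * kp a b c0 = B)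
    (he0 : 0 < e0) (her : e0 ≤ r0)
    (hcol : PJ a b J ∩ ball c0 r0 ⊆ closedBall c0 e0) {m : ℕ} {z : ℂ}
    (hz : z ∈ (pre a b)^[m] (ball c0 (2 * t0)))
    (hout : ∀ j, 0 < j → j < m → t0 ≤ ‖(gg a b)^[j] z - c0‖) {l : ℕ} (hl : l + 1 ≤ m)
    (hS : St a b J c0 e0 t0 r0 M L K C1 B δ Λ Mf ml ll R N m z (l + 1)) :
    St a b J c0 e0 t0 r0 M L K C1 B δ Λ Mf ml ll R N m z l := by
  classical
  obtain ⟨S, p, k, q, e, t, s, r, ψ, hp, hScr, hlk, hkm, hqJ, hqc, hFr, hQ, hrR, hzk, hBr, hψz, hRc, hkm0, hlast⟩ := hS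
  have hA0 : 0 < A := by linarith [hx.hA]
  have hMf : Mf ≤ ml p := hx.mg p
  obtain ⟨hlL, hlA, hl8⟩ := hx.lg p
  have he : 0 < e := hFr.he
  have ht0 : 0 < t := lt_of_lt_of_le he hFr.et
  have hs0 : 0 < s := lt_of_lt_of_le ht0 hFr.ts
  have hr0 : 0 < r := lt_of_lt_of_le hs0 hFr.sr
  have h8e : 8 * e ≤ t := (mul_le_mul_of_nonneg_right (hx.hM8.trans hMf) he.le).trans hQ.te
  have h8s : 8 * s ≤ r := (mul_le_mul_of_nonneg_right hl8 hs0.le).trans hQ.rs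
  have hrR0 : r ≤ R 0 := hrR.trans (hx.R0 p)
  have hNJ : ball q r ⊆ NJ J δ0 := fun w hw => ⟨q, hqJ, ball_subset_ball (hrR0.trans hx.Rδ0) hw⟩
  have hcolq : PJ a b J ∩ ball q r ⊆ closedBall q e := by
    rintro x ⟨hxP, hxb⟩
    have h1 := pre_sp.1 (hFr.map x hxb)
    exact hFr.eps x hxb (hcol ⟨p_inv h hxP h1.1, h1.2⟩)
  have hzk4 : (gg a b)^[k] z ∈ ball q (r / 4) := ball_subset_ball (by linarith) hzk
  have hzl : (gg a b)^[l] z ∈ (pre a b)^[m - l] (ball c0 (2 * t0)) := by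
    have h1 : m = l + (m - l) := by omega
    rw [h1] at hz
    exact (pre_add.1 hz).2
  have hbl : b.eval ((gg a b)^[l] z) ≠ 0 := pre_ne (by omega) hzl
  have hgl : gg a b ((gg a b)^[l] z) = ψ ((gg a b)^[k] z) := by
    rw [hψz, Function.iterate_succ_apply']
  rcases hx.stp (k - (l + 1)) q e r ψ _ _ hNJ he (by linarith [hFr.ts, hFr.sr]) hrR0 hcolq hBr hzk4 hbl hgl with
    ⟨φ, hφ, hφz⟩ | ⟨c, hcJ, hcc, hzc, y, hy, hψy⟩
  · refine ⟨S, p, k, q, e, t, s, r, φ, hp, hScr, by omega, hkm, hqJ, hqc, hFr, hQ, hrR, hzk, ?_, hφz, hRc,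
      hkm0, hlast⟩
    have h1 : k - (l + 1) + 1 = k - l := by omega
    rwa [h1] at hφ
  -- the fold
  obtain ⟨p', rfl⟩ : ∃ p', p = p' + 1 := ⟨p - 1, by have := hx.card S hScr; omega⟩
  have hy4 : y ∈ ball q (r / 4) := by
    refine closedBall_subset_ball ?_ hy
    linarith [hFr.ts, hFr.sr]
  have hsm := hx.sm p' (k - (l + 1)) q r ψ hNJ hr0 hrR hBr c hcJ hcc y hy4 hψy
  obtain ⟨hβ, hFr', hlift, hlit, hin⟩ := hx.frm c0 e0 t0 r0 (m - k) (k - (l + 1)) q c y e t s r ψ hcol hFr hNJ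
    ((mul_le_mul_of_nonneg_right (hx.hMA.trans hMf) he.le).trans hQ.te)
    ((mul_le_mul_of_nonneg_right hlA hs0.le).trans hQ.rs) hBr hcJ hcc hy hψy (hsm.le.trans (min_le_left _ _))
  have hidx : m - k + (k - (l + 1)) + 1 = m - l := by omega
  rw [hidx] at hFr'
  rw [hx.ms, hx.ls] at hQ
  have hml0 : 0 ≤ ml p' := le_trans (by linarith [hx.hM8]) (hx.mg p')
  have hll0 : 0 ≤ ll p' := le_trans (by norm_num) (hx.lg p').2.2
  have hQ' := fold_qu hx.hA hx.hK hx.hΛ hml0 hll0 hβ hs0.le hQ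
  have hzin := hin ((gg a b)^[l] z) ((gg a b)^[k] z) hzk hzc.le hgl
  have hκp : 0 < kp a b c := hx.hκ0.trans_le (hx.hκ c hcJ hcc)
  obtain ⟨β, hβdef⟩ : ∃ β : ℝ, β = ‖deriv ψ y‖ / kp a b c := ⟨_, rfl⟩
  have hβκ : ‖deriv ψ y‖ = kp a b c * β := by
    rw [hβdef]
    field_simp
  rw [← hβdef] at hβ hFr' hlift hlit hin hQ' hzin
  have hrr' : √(β * r / A) ≤ R p' := by
    have h1 : β * r / A ≤ R p' ^ 2 := by
      have h2 : β * r / A ≤ β * r := div_le_self (by positivity) (by linarith [hx.hA])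
      have h3 := hsm.le.trans (min_le_right _ _)
      rw [hβκ] at h3
      have h4 : κ0 * R p' ^ 2 ≤ kp a b c * R p' ^ 2 := mul_le_mul_of_nonneg_right (hx.hκ c hcJ hcc) (by positivity)
      have h5 : kp a b c * (β * r) ≤ kp a b c * R p' ^ 2 := by
        calc kp a b c * (β * r) = r * (kp a b c * β) := by ring
          _ ≤ _ := h3
          _ ≤ _ := h4
      exact h2.trans (le_of_mul_le_mul_left h5 hκp)
    calc √(β * r / A) ≤ √(R p' ^ 2) := Real.sqrt_le_sqrt h1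
      _ = R p' := Real.sqrt_sq (hx.Rp p').le
  have hdg0 : ‖deriv ψ y‖ * t ≤ (A * kp a b c) * √(β * t / A) ^ 2 := by
    rw [Real.sq_sqrt (by positivity), hβκ]
    exact le_of_eq (by field_simp)
  have hdg : ‖deriv ψ y‖ * t ≤ C1 * √(β * t / A) ^ 2 :=
    hdg0.trans (mul_le_mul_of_nonneg_right (hx.hC c hcJ hcc) (by positivity))
  have hdgB : c = c0 → ‖deriv ψ y‖ * t ≤ B * √(β * t / A) ^ 2 := by
    intro hc0
    rw [← hB, ← hc0]
    exact hdg0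
  clear hdg0
  generalize √(A * β * e) = e' at *
  generalize √(β * t / A) = t' at *
  generalize √(A * β * s) = s' at *
  generalize √(β * r / A) = r' at *
  have hbz : ∀ x ∈ ball c r', b.eval x ≠ 0 := fun x hxb => pre_ne (by omega) (hFr'.map x hxb)
  -- composition
  have hcomp : ∀ (kc : ℕ) (T : Set ℂ), k ≤ kc → (∀ x ∈ ball q r, x ∈ (pre a b)^[kc - k] T) →
      ∀ x ∈ ball c r', x ∈ (pre a b)^[kc - l] T := by
    intro kc T hkc hT x hxb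
    obtain ⟨x', hx', hψx⟩ := hlift x hxb
    have h1 := b_pre h hNJ hBr hx'
    rw [hψx] at h1
    have h2 := pre_trans (l := kc - (l + 1)) (by omega) h1 (hT x' hx')
    exact pre_cons (by omega) (hbz x hxb) h2
  have he' : 0 < e' := hFr'.he
  have hcr' : c ∈ ball c r' := mem_ball_self (lt_of_lt_of_le (lt_of_lt_of_le (lt_of_lt_of_le he' hFr'.et) hFr'.ts) hFr'.sr)
  have hzr' : ‖(gg a b)^[l] z - c‖ < r' := by
    have h1 := ball_subset_ball hFr'.sr hzin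
    rwa [mem_ball, dist_eq_norm] at h1
  -- `c` is new
  have hcS : c ∉ S := by
    intro hcS
    obtain ⟨kc, ec, tc, sc, rc, hkkc, hkcm, hFc, hMc, hsc, hrc, hpc⟩ := hRc c hcS
    have hec : 0 < ec := hFc.he
    have htc : 0 < tc := lt_of_lt_of_le hec hFc.et
    have hnot : tc ≤ ‖(gg a b)^[l] z - c‖ := by
      by_contra hcon
      push Not at hcon
      have h1 : (gg a b)^[l] z ∈ ball c tc := by rwa [mem_ball, dist_eq_norm]
      have h2 := hFc.inn _ h1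
      rw [← Function.iterate_add_apply, mem_ball, dist_eq_norm] at h2
      have h3 := hout (m - kc + l) (by omega) (by omega)
      linarith
    have hmap := hcomp kc (ball c rc) hkkc hpc
    refine ntw h hcJ hcc (N := kc - l) (by omega) hec (r := rc) (r' := r') ?_ ?_ hmap ?_
    · have h1 : 8 * ec ≤ tc := (mul_le_mul_of_nonneg_right hx.hM8 hec.le).trans hMc
      linarith
    · have h1 : rc ≤ Λ * (K * tc) := hrc.trans (mul_le_mul_of_nonneg_left hsc (by linarith [hx.hΛ]))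
      have h2 : 64 * ec * rc ≤ 64 * ec * (Λ * (K * tc)) := mul_le_mul_of_nonneg_left h1 (by positivity)
      have h3 : 64 * K * Λ * ec ≤ tc := (mul_le_mul_of_nonneg_right hx.hMK hec.le).trans hMc
      have h4 : 64 * ec * (Λ * (K * tc)) ≤ tc * tc := by
        calc 64 * ec * (Λ * (K * tc)) = (64 * K * Λ * ec) * tc := by ring
          _ ≤ tc * tc := mul_le_mul_of_nonneg_right h3 htc.le
      have h5 : tc * tc ≤ r' ^ 2 := by
        have h6 : tc ≤ r' := hnot.trans hzr'.le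
        nlinarith
      linarith
    · have h1 := pre_sp.1 (hmap c hcr')
      have h2 : (gg a b)^[m - kc] ((gg a b)^[kc - l] c) ∈ closedBall c0 e0 := by
        rw [← Function.iterate_add_apply]
        have h3 : m - kc + (kc - l) = m - l := by omega
        rw [h3]
        exact hFr'.cen
      have h3 := hFc.eps _ h1.2 h2
      rwa [mem_closedBall, dist_eq_norm] at h3
  -- the case `c = c0`, `l = 0`
  have hl0 : l = 0 → c = c0 → r' ^ 2 ≤ 256 * e0 * r0 := by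
    intro hl0 hcc0
    by_contra hcon
    push Not at hcon
    have hr'0 : 0 < r' := lt_of_le_of_lt (norm_nonneg _) hzr'
    have h1 : 256 * e0 * e0 ≤ 256 * e0 * r0 := mul_le_mul_of_nonneg_left her (by positivity)
    have h2 : 4 * e0 < r' := by
      by_contra h3
      push Not at h3
      have h4 : r' ^ 2 ≤ (4 * e0) ^ 2 := pow_le_pow_left₀ hr'0.le h3 2
      nlinarith [mul_pos he0 he0]
    refine ntw h hcJ hcc (N := m - l) (by omega) he0 (r := r0) (r' := r') h2 ?_ ?_ ?_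
    · nlinarith [mul_pos he0 (lt_of_lt_of_le he0 her)]
    · rw [hcc0] at hFr' ⊢
      exact hFr'.map
    · have h3 := hFr'.cen
      rw [hcc0] at h3 ⊢
      rwa [mem_closedBall, dist_eq_norm] at h3
  refine ⟨insert c S, p', l, c, e', t', s', r', id, ?_, ?_, le_rfl, by omega, hcJ, hcc, hFr', hQ', hrr', hzin, ?_,
    rfl, ?_, fun hlm => absurd hlm (by omega), Or.inr ⟨k, q, y, e, t, s, r, ψ, by omega, hkm, hqJ, hqc, hFr, ?_,
      hQ.st, ?_, hrR0.trans hx.Rδ, ?_, hy, hψy, hlift, hlit, hdg, hkm0, hl0, hdgB⟩⟩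
  · rw [Finset.card_insert_of_notMem hcS]
    omega
  · intro c' hc'
    rcases Finset.mem_insert.1 hc' with rfl | hc'
    · exact ⟨hcJ, hcc⟩
    · exact hScr c' hc'
  · rw [Nat.sub_self]
    exact ⟨differentiableOn_id, rfl, fun u _ => rfl⟩
  · intro c' hc'
    rcases Finset.mem_insert.1 hc' with rfl | hc'
    · refine ⟨l, e', t', s', r', le_rfl, by omega, hFr',
        (mul_le_mul_of_nonneg_right (hx.mg p') he'.le).trans hQ'.te, hQ'.st, hQ'.up, ?_⟩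
      intro x hxb
      rw [Nat.sub_self]
      exact hxb
    · obtain ⟨kc, ec, tc, sc, rc, hkkc, hkcm, hFc, hMc, hsc, hrc, hpc⟩ := hRc c' hc'
      exact ⟨kc, ec, tc, sc, rc, by omega, hkcm, hFc, hMc, hsc, hrc, hcomp kc _ hkkc hpc⟩
  · have h1 : Mf ≤ (A * ml p') ^ 2 := by rw [← hx.ms]; exact hx.mg _
    exact (mul_le_mul_of_nonneg_right (hx.hM.trans h1) he.le).trans hQ.te
  · have h1 : L ≤ (A * ll p') ^ 2 := by rw [← hx.ls]; exact (hx.lg _).1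
    exact (mul_le_mul_of_nonneg_right h1 hs0.le).trans hQ.rs
  · have h1 : k - l - 1 = k - (l + 1) := by omega
    rwa [h1]

/-- the sequence of the constants -/
private noncomputable def sqs (A x : ℝ) : ℕ → ℝ
  | 0 => x
  | n + 1 => (A * sqs A x n) ^ 2

private theorem sqs_ge {A x : ℝ} (hA : 2 ≤ A) (hx : 1 ≤ x) (n : ℕ) : x ≤ sqs A x n := by
  induction n with
  | zero => exact le_rfl
  | succ n ih =>
    have h1 : 1 ≤ sqs A x n := hx.trans ih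
    have h2 : sqs A x n ≤ A * sqs A x n := by nlinarith
    have h3 : A * sqs A x n ≤ (A * sqs A x n) ^ 2 := by nlinarith
    exact ih.trans (h2.trans h3)

private theorem seq_ex (P : ℝ → ℝ → Prop) (R0 : ℝ) (h0 : 0 < R0)
    (hP : ∀ x, 0 < x → ∃ y, 0 < y ∧ y ≤ R0 ∧ P x y) :
    ∃ R : ℕ → ℝ, R 0 = R0 ∧ (∀ p, 0 < R p) ∧ (∀ p, R p ≤ R0) ∧ ∀ p, P (R p) (R (p + 1)) := by
  choose! f hf using hP
  obtain ⟨R, hR⟩ : ∃ R : ℕ → ℝ, R = fun n => Nat.rec R0 (fun _ x => f x) n := ⟨_, rfl⟩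
  have hR0 : R 0 = R0 := by subst hR; rfl
  have hRs : ∀ p, R (p + 1) = f (R p) := fun p => by subst hR; rfl
  have hpos : ∀ p, 0 < R p := by
    intro p
    induction p with
    | zero => rw [hR0]; exact h0
    | succ p ih => rw [hRs]; exact (hf _ ih).1
  refine ⟨R, hR0, hpos, fun p => ?_, fun p => ?_⟩
  · rcases p with _ | p
    · rw [hR0]
    · rw [hRs]
      exact (hf _ (hpos p)).2.1
  · rw [hRs]
    exact (hf _ (hpos p)).2.2

theorem chn_u (d : ℕ) {L : ℝ} (hL : 0 < L) : ∃ L1 : ℝ, ∀ Λ : ℝ, L1 ≤ Λ → ∀ M : ℝ, 0 < M → ∃ M0 : ℝ, 0 < M0 ∧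
    ∀ {a b : Polynomial ℂ} {J : Set ℂ} {δ0 : ℝ}, Geo d a b J δ0 → ∀ C1 : ℝ, (∀ c ∈ J, Cr a b c → AU * kp a b c ≤ C1) →
    ∀ δ : ℝ, 0 < δ → ∃ r1 : ℝ, 0 < r1 ∧ ∀ c0 ∈ J, Cr a b c0 → ∀ e0 t0 r0 : ℝ, 0 < e0 → M0 * e0 ≤ t0 → L1 * t0 ≤ r0 →
    r0 ≤ Λ * t0 → r0 ≤ r1 → PJ a b J ∩ ball c0 r0 ⊆ closedBall c0 e0 →
    Chq a b J c0 e0 t0 r0 M L (AU ^ 2) C1 (AU * kp a b c0) δ := by
  obtain ⟨N, hNd⟩ : ∃ N : ℕ, N = 2 * d := ⟨_, rfl⟩
  obtain ⟨A, hAdef⟩ : ∃ A : ℝ, A = AU := ⟨_, rfl⟩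
  have hA : 2 ≤ A := by
    have := AU_ge
    rw [hAdef]
    linarith
  rw [← hAdef]
  obtain ⟨Lf, hLf⟩ : ∃ Lf : ℝ, Lf = max L (max (A ^ 2) 8) := ⟨_, rfl⟩
  have hLfL : L ≤ Lf := by rw [hLf]; exact le_max_left _ _
  have hLfA : A ^ 2 ≤ Lf := by rw [hLf]; exact (le_max_left _ _).trans (le_max_right _ _)
  have hLf8 : 8 ≤ Lf := by rw [hLf]; exact (le_max_right _ _).trans (le_max_right _ _)
  have hll := fun p => sqs_ge (A := A) (x := Lf) hA (by linarith) p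
  refine ⟨2 * sqs A Lf (N + 1), fun Λ hΛ M hM => ?_⟩
  have hΛ1 : 1 ≤ Λ := by
    have := hll (N + 1)
    linarith
  obtain ⟨Mf, hMf⟩ : ∃ Mf : ℝ, Mf = max M (max (A ^ 2) (max (64 * A ^ 2 * Λ) 8)) := ⟨_, rfl⟩
  have hMfM : M ≤ Mf := by rw [hMf]; exact le_max_left _ _
  have hMfA : A ^ 2 ≤ Mf := by rw [hMf]; exact (le_max_left _ _).trans (le_max_right _ _)
  have hMfK : 64 * A ^ 2 * Λ ≤ Mf := by
    rw [hMf]
    exact ((le_max_left _ _).trans (le_max_right _ _)).trans (le_max_right _ _)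
  have hMf8 : 8 ≤ Mf := by
    rw [hMf]
    exact ((le_max_right _ _).trans (le_max_right _ _)).trans (le_max_right _ _)
  have hml := fun p => sqs_ge (A := A) (x := Mf) hA (by linarith) p
  refine ⟨sqs A Mf (N + 1), lt_of_lt_of_le (by linarith) (hml (N + 1)), ?_⟩
  intro a b J δ0 h C1 hC1 δ hδ
  obtain ⟨κ0, κ1, hκ0, hκb⟩ := kp_bds h
  obtain ⟨δ1, hδ1, hfrm⟩ := frm_u h
  rw [← hAdef] at hfrm
  obtain ⟨rs, hrs, hstp⟩ := stp h hδ1
  have hR0pos : 0 < min rs (min δ δ0) := lt_min hrs (lt_min hδ h.hδ)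
  obtain ⟨R, hR0, hRp, hRle, hRs⟩ := seq_ex (fun x y => ∀ (n : ℕ) (q : ℂ) (r : ℝ) (ψ : ℂ → ℂ),
    ball q r ⊆ NJ J δ0 → 0 < r → r ≤ y → Br (rat a b) n q r (ψ q) ψ → ∀ c ∈ J, Cr a b c →
    ∀ y ∈ ball q (r / 4), ψ y = gg a b c → r * ‖deriv ψ y‖ < min δ1 (κ0 * x ^ 2)) (min rs (min δ δ0)) hR0pos (by
      intro x hx
      obtain ⟨y, hy, hsm⟩ := sm2 h (δ := min δ1 (κ0 * x ^ 2)) (lt_min hδ1 (by positivity))
      refine ⟨min y (min rs (min δ δ0)), lt_min hy hR0pos, min_le_right _ _, ?_⟩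
      intro n q r ψ hq hr hry hBr c hc hcc y' hy' hψ
      exact (hsm n q r ψ hq hr (hry.trans (min_le_left _ _)) hBr c hc hcc y' hy' hψ).1)
  have hx : Cx a b J δ0 A δ1 κ0 (A ^ 2) C1 L δ Λ M Mf (sqs A Mf) (sqs A Lf) R N :=
    { hA := hA
      hK := rfl
      hκ0 := hκ0
      hκ := fun c hc hcc => (hκb c hc hcc).1
      hC := hC1
      hδ1 := hδ1
      hΛ := hΛ1
      hM := hMfM
      hMA := hMfA
      hMK := hMfK
      hM8 := hMf8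
      frm := hfrm
      stp := fun n q e r ψ x0 z h1 h2 h3 h4 => hstp n q e r ψ x0 z h1 h2 h3
        (h4.trans (by rw [hR0]; exact min_le_left _ _))
      sm := fun p => hRs p
      Rp := hRp
      R0 := fun p => by rw [hR0]; exact hRle p
      Rδ := by rw [hR0]; exact (min_le_right _ _).trans (min_le_left _ _)
      Rδ0 := by rw [hR0]; exact (min_le_right _ _).trans (min_le_right _ _)
      mg := hml
      ms := fun p => rfl
      lg := fun p => ⟨hLfL.trans (hll p), hLfA.trans (hll p), hLf8.trans (hll p)⟩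
      ls := fun p => rfl
      card := fun S hS => by
        rw [hNd]
        exact cr_card h S hS }
  refine ⟨R (N + 1), hRp _, ?_⟩
  intro c0 hc0 hcr0 e0 t0 r0 he0 hM0 hL1 hrΛ hr1 hcol m z hm hz hout
  have h8 : 8 * e0 ≤ t0 := (mul_le_mul_of_nonneg_right (hMf8.trans (hml (N + 1))) he0.le).trans hM0
  have ht0 : 0 < t0 := by linarith
  have h2t : 2 * t0 ≤ r0 := by
    have h1 : 2 * t0 ≤ 2 * sqs A Lf (N + 1) * t0 := by
      refine mul_le_mul_of_nonneg_right ?_ ht0.le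
      linarith [hll (N + 1)]
    linarith
  have hzm := pre_sp.1 hz
  have hstart : St a b J c0 e0 t0 r0 M L (A ^ 2) C1 (A * kp a b c0) δ Λ Mf (sqs A Mf) (sqs A Lf) R N m z m := by
    refine ⟨∅, N + 1, m, c0, e0, t0, 2 * t0, r0, id, by simp, fun c hc => absurd hc (Finset.notMem_empty c),
      le_rfl, le_rfl, hc0, hcr0, ?_, ⟨hM0, ?_, ?_, ?_⟩, hr1, hzm.2, ?_, rfl,
      fun c hc => absurd hc (Finset.notMem_empty c), fun _ => ⟨rfl, rfl⟩, Or.inl ⟨rfl, rfl, rfl⟩⟩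
    · rw [Nat.sub_self]
      exact
        { he := he0
          et := by linarith
          ts := by linarith
          sr := h2t
          map := fun x hx => hx
          inn := fun x hx => hx
          out := fun x _ hx => hx
          eps := fun x _ hx => hx
          cen := mem_closedBall_self he0.le }
    · exact mul_le_mul_of_nonneg_right (by nlinarith) ht0.le
    · linarith
    · have : Λ * t0 ≤ Λ * (2 * t0) := mul_le_mul_of_nonneg_left (by linarith) (by linarith)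
      linarith
    · rw [Nat.sub_self]
      exact ⟨differentiableOn_id, rfl, fun u _ => rfl⟩
  have hall : ∀ i ≤ m, St a b J c0 e0 t0 r0 M L (A ^ 2) C1 (A * kp a b c0) δ Λ Mf (sqs A Mf) (sqs A Lf) R N m z (m - i) := by
    intro i
    induction i with
    | zero => exact fun _ => hstart
    | succ i ih =>
      intro hi
      have h1 := ih (by omega)
      have h2 : m - i = (m - (i + 1)) + 1 := by omega
      rw [h2] at h1
      exact step h hx rfl he0 (by linarith) hcol hz hout (by omega) h1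
  have h0 := hall m le_rfl
  rw [Nat.sub_self] at h0
  obtain ⟨S, p, k, q, e, t, s, r, ψ, hp, hScr, hlk, hkm, hqJ, hqc, hFr, hQ, hrR, hzk, hBr, hψz, hRc, hkm0, hlast⟩ := h0
  rw [Nat.sub_zero] at hBr
  rcases hlast with ⟨rfl, rfl, rfl⟩ | ⟨k2, q2, y, e2, t2, s2, r2, γ, hk2, hk2m, hq2J, hq2c, hF2, hM2, hK2, hL2, hr2, hBr2,
    hy, hγy, hlift, hlit, hdg, hk2m0, hk0, hkB⟩
  · exact Or.inl ⟨ψ, hBr, hψz⟩
  · refine Or.inr ⟨k, k2, q, q2, y, e, t, s, r, e2, t2, s2, r2, ψ, γ, ?_, hk2m, hFr,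
      (mul_le_mul_of_nonneg_right (hMfM.trans (hml p)) hFr.he.le).trans hQ.te, hF2, hzk, hψz, hk2m0, hk0, hkB⟩
    exact
      { lt := hk2
        q1J := hqJ
        q2J := hq2J
        w1 := hqc
        w2 := hq2c
        t1p := lt_of_lt_of_le hFr.he hFr.et
        ts1 := hFr.ts
        st1 := hQ.st
        rs1 := (mul_le_mul_of_nonneg_right (hx.lg p).1
          ((lt_of_lt_of_le (lt_of_lt_of_le hFr.he hFr.et) hFr.ts).le)).trans hQ.rs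
        r1δ := hrR.trans ((hx.R0 p).trans hx.Rδ)
        e2p := hF2.he
        te2 := hM2
        ts2 := hF2.ts
        st2 := hK2
        rs2 := hL2
        r2δ := hr2
        br1 := hBr
        br2 := hBr2
        yq := hy
        yv := hγy
        lift := hlift
        lit := hlit
        dg := hdg }

end Pool.Agent.H83.BE
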