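import Pool.Agent.H83.BE.GEOU
import Pool.Agent.H39.BE.Main

/-!
# THEOREM BEAU: the uniform geometry, `GeoU`
-/

set_option autoImplicit false

namespace Pool.Agent.H83.BE

theorem geoU (d : ℕ) {θ : ℝ} (hθ : 0 < θ) : Pool.Agent.H39.BE.GeoU d θ := geo_u d hθ

end Pool.Agent.H83.BE
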