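import Pool.Agent.H18.UP.RD1
import Pool.Agent.H18.UP.RD2
import Pool.Agent.H83.BE.CHNU

/-!
# THEOREM BEAU: annuli at points of `PJ` give annuli at a critical point, with universal loss of the ratio

`rd_u`, `rd2_u`: as `rd1`, `rd2` (H18/UP/RD1, RD2; the proofs are copies) with `frm_u`, `chn_u`.
-/

set_option autoImplicit false

open Filter Topology Polynomial Metric Set MeasureTheory

namespace Pool.Agent.H83.BE

open Pool.Agent.H44.Fatou (rat rat_continuous)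
open Pool.Agent.H80.AJ (Br KK one_le_KK KK_pos distort distort_lip deriv_ne univ_cover)
open Pool.Agent.H32.BT (IsCrit)
open Pool.Agent.H61.TT Pool.Agent.H57.CP Pool.Agent.H3.NC Pool.Agent.H18.UP
open Pool.Agent.H39.BE (kp FatM)

variable {d : ℕ} {a b : Polynomial ℂ} {J : Set ℂ} {δ0 : ℝ}

private theorem rdu_J (h : Geo d a b J δ0) {x : ℂ} (hx : x ∈ PJ a b J) : x ∈ J := by
  revert x
  show PJ a b J ⊆ J
  unfold PJ
  refine closure_minimal ?_ h.Jc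
  rintro y ⟨c, hc, -, n, -, hcn, rfl⟩
  have h1 := (mem_pre.1 hcn).1
  have h2 : ∀ i ≤ n, (gg a b)^[i] c ∈ J := by
    intro i
    induction i with
    | zero => exact fun _ => hc
    | succ i ih =>
      intro hi
      rw [Function.iterate_succ_apply']
      exact h.Ji _ (ih (by omega)) (h1 i (by omega))
  exact h2 n le_rfl

/-- the root frame -/
private theorem rd1_fr (a b : Polynomial ℂ) (x : ℂ) {e A R : ℝ} (he : 0 < e) (hA : 2 ≤ A)
    (hR : 2 * (A ^ 2 * e) ≤ R) : Fr a b x e (A ^ 2 * e) R 0 x e (A ^ 2 * e) (2 * (A ^ 2 * e)) R where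
  he := he
  et := by
    have h1 : 1 ≤ A ^ 2 := by nlinarith
    nlinarith
  ts := by
    have h1 : 0 ≤ A ^ 2 * e := by positivity
    linarith
  sr := hR
  map := fun z hz => hz
  inn := fun z hz => hz
  out := fun z _ hz => hz
  eps := fun z _ hz => hz
  cen := mem_closedBall_self he.le

/-- the branch along the orbit -/
private theorem rd1_br (h : Geo d a b J δ0) {rs : ℝ} (hst : ∀ (n : ℕ) (q : ℂ) (e r : ℝ) (ψ : ℂ → ℂ) (x0 z : ℂ),
    ball q r ⊆ NJ J δ0 → 0 < e → 8 * e ≤ r → r ≤ rs → PJ a b J ∩ ball q r ⊆ closedBall q e →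
    Br (rat a b) n q r (ψ q) ψ → x0 ∈ ball q (r / 4) → b.eval z ≠ 0 → gg a b z = ψ x0 →
    (∃ φ : ℂ → ℂ, Br (rat a b) (n + 1) q r (φ q) φ ∧ φ x0 = z) ∨
    ∃ c ∈ J, Cr a b c ∧ ‖z - c‖ < 1 ∧ ∃ y ∈ closedBall q e, ψ y = gg a b c)
    {x c : ℂ} {e R : ℝ} {n : ℕ} (he : 0 < e) (h8 : 8 * e ≤ R) (hRs : R ≤ rs) (hNJ : ball x R ⊆ NJ J δ0)
    (hP : PJ a b J ∩ ball x R ⊆ closedBall x e) (hcn : c ∈ (pre a b)^[n] univ)
    (hy : (gg a b)^[n] c ∈ closedBall x e)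
    (hmin : ∀ k : ℕ, 0 < k → k < n → ¬ ∃ c ∈ J, Cr a b c ∧ c ∈ (pre a b)^[k] univ ∧ (gg a b)^[k] c ∈ ball x (2 * e)) :
    ∀ k : ℕ, k < n → ∃ ψ : ℂ → ℂ, Br (rat a b) k x R (ψ x) ψ ∧ ψ ((gg a b)^[n] c) = (gg a b)^[n - k] c := by
  have hy4 : (gg a b)^[n] c ∈ ball x (R / 4) := by
    rw [mem_closedBall] at hy
    rw [mem_ball]
    linarith
  intro k
  induction k with
  | zero =>
    intro _
    exact ⟨id, ⟨differentiableOn_id, rfl, fun u _ => rfl⟩, rfl⟩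
  | succ k ih =>
    intro hk
    obtain ⟨ψ, hψ, hψy⟩ := ih (by omega)
    have hbz : b.eval ((gg a b)^[n - (k + 1)] c) ≠ 0 := (mem_pre.1 hcn).1 _ (by omega)
    have hgz : gg a b ((gg a b)^[n - (k + 1)] c) = ψ ((gg a b)^[n] c) := by
      rw [hψy, ← Function.iterate_succ_apply' (gg a b)]
      congr 2
      omega
    rcases hst k x e R ψ ((gg a b)^[n] c) ((gg a b)^[n - (k + 1)] c) hNJ he h8 hRs hP hψ hy4 hbz hgz with h1 | h1
    · exact h1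
    · exfalso
      obtain ⟨c', hc', hcr', -, y', hy', hyc'⟩ := h1
      have hyR : y' ∈ ball x R := by
        rw [mem_closedBall] at hy'
        rw [mem_ball]
        linarith
      refine hmin (k + 1) (Nat.succ_pos k) hk ⟨c', hc', hcr', ?_, ?_⟩
      · rw [Function.iterate_succ_apply']
        refine ⟨hcr'.1, ?_⟩
        rw [← hyc']
        exact pre_mono (subset_univ _) (b_pre h hNJ hψ hyR)
      · rw [Function.iterate_succ_apply, ← hyc', b_gg h hNJ hψ hyR]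
        rw [mem_closedBall] at hy'
        rw [mem_ball]
        linarith

/-- the loss of the ratio -/
private noncomputable def ML (M : ℝ) : ℝ := 8 + 2 * AU ^ 4 + AU ^ 2 * M ^ 2

private theorem rdu_one (h : Geo d a b J δ0) {M : ℝ} (hM : 0 < M) (hF : ∀ δ : ℝ, 0 < δ → ∃ x ∈ PJ a b J, ∃ e R : ℝ, 0 < e ∧
    ML M * e ≤ R ∧ R ≤ δ ∧ PJ a b J ∩ ball x R ⊆ closedBall x e) {δ : ℝ} (hδ : 0 < δ) :
    ∃ c ∈ J, Cr a b c ∧ ∃ e R : ℝ, 0 < e ∧ M * e ≤ R ∧ R ≤ δ ∧ PJ a b J ∩ ball c R ⊆ closedBall c e := by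
  classical
  obtain ⟨A, hAdef⟩ : ∃ A : ℝ, A = AU := ⟨_, rfl⟩
  have hA : 2 ≤ A := by
    have := AU_ge
    rw [hAdef]
    linarith
  obtain ⟨δf, hδf, hfrm⟩ := frm_u h
  rw [← hAdef] at hfrm
  obtain ⟨κ0, κ1, hκ0, hκb⟩ := kp_bds h
  obtain ⟨rs, hrs, hst⟩ := stp h one_pos
  have hA0 : 0 < A := by linarith
  obtain ⟨r2, hr2, hsm⟩ := sm2 h (δ := min δf (κ0 * (A * δ ^ 2))) (lt_min hδf (by positivity))
  obtain ⟨M1, hM1⟩ : ∃ M1 : ℝ, M1 = 8 + 2 * A ^ 4 + A ^ 2 * M ^ 2 := ⟨_, rfl⟩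
  have hMM : ML M = M1 := by
    rw [hM1, hAdef]
    rfl
  rw [hMM] at hF
  have hM10 : 0 < M1 := by
    rw [hM1]
    positivity
  obtain ⟨x, hx, e, R, he, hMR, hR1, hP⟩ := hF (min (min rs r2) δ0) (lt_min (lt_min hrs hr2) h.hδ)
  have hRs : R ≤ rs := hR1.trans ((min_le_left _ _).trans (min_le_left _ _))
  have hR2 : R ≤ r2 := hR1.trans ((min_le_left _ _).trans (min_le_right _ _))
  have hRδ : R ≤ δ0 := hR1.trans (min_le_right _ _)
  have hxJ : x ∈ J := rdu_J h hx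
  have hN : ball x R ⊆ NJ J δ0 := fun w hw => ⟨x, hxJ, ball_subset_ball hRδ hw⟩
  have h8 : 8 * e ≤ R := by
    have h1 : 8 * e ≤ M1 * e := by
      refine mul_le_mul_of_nonneg_right ?_ he.le
      rw [hM1]
      nlinarith [sq_nonneg (A ^ 2), sq_nonneg (A * M)]
    linarith
  have h2A : A ^ 2 * (2 * (A ^ 2 * e)) ≤ R := by
    have h1 : 2 * A ^ 4 * e ≤ M1 * e := by
      refine mul_le_mul_of_nonneg_right ?_ he.le
      rw [hM1]
      nlinarith [sq_nonneg (A * M)]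
    have h2 : A ^ 2 * (2 * (A ^ 2 * e)) = 2 * A ^ 4 * e := by ring
    linarith
  have hMA : A ^ 2 * M ^ 2 * e ≤ R := by
    have h1 : A ^ 2 * M ^ 2 * e ≤ M1 * e := by
      refine mul_le_mul_of_nonneg_right ?_ he.le
      rw [hM1]
      nlinarith [sq_nonneg (A ^ 2)]
    linarith
  have h2e : 2 * (A ^ 2 * e) ≤ R := by
    have h1 : 1 ≤ A ^ 2 := by nlinarith
    have h2 : 0 ≤ 2 * (A ^ 2 * e) := by positivity
    nlinarith
  have hRpos : 0 < R := by linarith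
  have hex : ∃ n : ℕ, 0 < n ∧ ∃ c ∈ J, Cr a b c ∧ c ∈ (pre a b)^[n] univ ∧ (gg a b)^[n] c ∈ ball x (2 * e) := by
    obtain ⟨y, ⟨c, hc, hcr, n, hn, hcn, rfl⟩, hd⟩ := Metric.mem_closure_iff.1 hx (2 * e) (by positivity)
    refine ⟨n, hn, c, hc, hcr, hcn, ?_⟩
    rw [mem_ball, dist_comm]
    exact hd
  obtain ⟨n, hnd⟩ : ∃ n, n = Nat.find hex := ⟨_, rfl⟩
  obtain ⟨hn, c, hc, hcr, hcn, hcb⟩ := Nat.find_spec hex
  rw [← hnd] at hn hcn hcb
  have hmin : ∀ k : ℕ, 0 < k → k < n → ¬ ∃ c ∈ J, Cr a b c ∧ c ∈ (pre a b)^[k] univ ∧ (gg a b)^[k] c ∈ ball x (2 * e) := by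
    intro k hk hkn hex'
    rw [hnd] at hkn
    exact Nat.find_min hex hkn ⟨hk, hex'⟩
  have hy : (gg a b)^[n] c ∈ closedBall x e := by
    refine hP ⟨p_cr hc hcr hn hcn, ?_⟩
    rw [mem_ball] at hcb ⊢
    linarith
  obtain ⟨ψ, hψ, hψy⟩ := rd1_br h hst he h8 hRs hN hP hcn hy hmin (n - 1) (by omega)
  have hn1 : n - (n - 1) = 1 := by omega
  rw [hn1, Function.iterate_one] at hψy
  have hy4 : (gg a b)^[n] c ∈ ball x (R / 4) := by
    rw [mem_closedBall] at hy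
    rw [mem_ball]
    linarith
  have hs := (hsm (n - 1) x R ψ hN hRpos hR2 hψ c hc hcr _ hy4 hψy).1
  have hs1 : R * ‖deriv ψ ((gg a b)^[n] c)‖ < δf := hs.trans_le (min_le_left _ _)
  have hs2 : R * ‖deriv ψ ((gg a b)^[n] c)‖ < κ0 * (A * δ ^ 2) := hs.trans_le (min_le_right _ _)
  have hκp : 0 < kp a b c := hκ0.trans_le (hκb c hc hcr).1
  obtain ⟨hβ, hFr, -⟩ := hfrm x e (A ^ 2 * e) R 0 (n - 1) x c ((gg a b)^[n] c) e (A ^ 2 * e) (2 * (A ^ 2 * e)) R ψ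
    hP (rd1_fr a b x he hA h2e) hN le_rfl h2A hψ hc hcr hy hψy hs1.le
  obtain ⟨β, hβd⟩ : ∃ β : ℝ, β = ‖deriv ψ ((gg a b)^[n] c)‖ / kp a b c := ⟨_, rfl⟩
  have hβκ : ‖deriv ψ ((gg a b)^[n] c)‖ = kp a b c * β := by
    rw [hβd]
    field_simp
  rw [← hβd] at hβ hFr
  have hs3 : β * R ≤ A * δ ^ 2 := by
    rw [hβκ] at hs2
    have h4 : κ0 * (A * δ ^ 2) ≤ kp a b c * (A * δ ^ 2) := mul_le_mul_of_nonneg_right (hκb c hc hcr).1 (by positivity)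
    have h5 : kp a b c * (β * R) ≤ kp a b c * (A * δ ^ 2) := by
      calc kp a b c * (β * R) = R * (kp a b c * β) := by ring
        _ ≤ _ := hs2.le
        _ ≤ _ := h4
    exact le_of_mul_le_mul_left h5 hκp
  refine ⟨c, hc, hcr, √(A * β * e), √(β * R / A), Real.sqrt_pos.2 (by positivity), ?_, ?_, ?_⟩
  · rw [← Real.sqrt_sq hM.le, ← Real.sqrt_mul (sq_nonneg M)]
    apply Real.sqrt_le_sqrt
    rw [le_div_iff₀ hA0]
    have h1 : M ^ 2 * (A * β * e) * A = β * (A ^ 2 * M ^ 2 * e) := by ring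
    rw [h1]
    exact mul_le_mul_of_nonneg_left hMA hβ.le
  · rw [Real.sqrt_le_left hδ.le, div_le_iff₀ hA0]
    linarith only [hs3]
  · rintro p ⟨hpP, hpb⟩
    have h1 := hFr.map p hpb
    have h2 := p_inv h hpP (pre_mono (subset_univ _) h1)
    exact hFr.eps p hpb (hP ⟨h2, (mem_pre.1 h1).2⟩)

theorem rd_u (d : ℕ) : ∀ M : ℝ, 0 < M → ∃ M3 : ℝ, 0 < M3 ∧ ∀ {a b : Polynomial ℂ} {J : Set ℂ} {δ0 : ℝ}, Geo d a b J δ0 →
    (∀ δ : ℝ, 0 < δ → ∃ x ∈ PJ a b J, ∃ e R : ℝ, 0 < e ∧ M3 * e ≤ R ∧ R ≤ δ ∧ PJ a b J ∩ ball x R ⊆ closedBall x e) →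
    ∃ c ∈ J, Cr a b c ∧ FatM a b J M c := by
  intro M hM
  have hd := d
  refine ⟨ML M, ?_, ?_⟩
  · unfold ML
    positivity
  intro a b J δ0 h hF
  by_contra hcon
  push Not at hcon
  have hN : ∀ c : ℂ, ∃ N : ℝ, 0 < N ∧ (c ∈ J → Cr a b c → ∀ e R : ℝ, 0 < e → M * e ≤ R → R ≤ N →
      ¬ PJ a b J ∩ ball c R ⊆ closedBall c e) := by
    intro c
    by_cases hc : c ∈ J ∧ Cr a b c
    · have h1 := hcon c hc.1 hc.2
      unfold FatM at h1
      push Not at h1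
      obtain ⟨δ, hδ, h2⟩ := h1
      exact ⟨δ, hδ, fun _ _ => h2⟩
    · exact ⟨1, one_pos, fun h1 h2 => absurd ⟨h1, h2⟩ hc⟩
  choose N hN0 hN1 using hN
  have e1 : ∀ᶠ δ in 𝓝[>] (0 : ℝ), ∀ c ∈ {c : ℂ | Cr a b c}, δ ≤ N c := by
    refine (eventually_all_finite (cr_fin h)).2 fun c _ => ?_
    filter_upwards [Ioo_mem_nhdsGT (hN0 c)] with t ht
    exact ht.2.le
  obtain ⟨δ, hδ1, hδ0⟩ := (e1.and self_mem_nhdsWithin).exists
  obtain ⟨c, hc, hcr, e, R, he, h1, h2, h3⟩ := rdu_one h hM hF hδ0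
  exact hN1 c hc hcr e R he h1 (h2.trans (hδ1 c hcr)) h3

theorem rd2_u (d : ℕ) : ∀ M : ℝ, 0 < M → ∃ M3 : ℝ, 0 < M3 ∧ ∀ {a b : Polynomial ℂ} {J : Set ℂ} {δ0 : ℝ}, Geo d a b J δ0 →
    ∀ {c r : ℂ}, c ∈ J → Cr a b c → r ∈ J → Cr a b r → FatM a b J M3 c →
    (∀ ε : ℝ, 0 < ε → ∃ n : ℕ, 0 < n ∧ r ∈ (pre a b)^[n] (ball c ε)) → FatM a b J M r := by
  intro M hM
  obtain ⟨L1, hL1⟩ := chn_u d (L := 4) (by norm_num)
  have hM' : 0 < max M 4 := lt_max_of_lt_left hM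
  obtain ⟨M0, hM0, hch0⟩ := hL1 (max L1 4) (le_max_left _ _) (max M 4) hM'
  have hΛ4 : (4 : ℝ) ≤ max L1 4 := le_max_right _ _
  have hΛL : L1 ≤ max L1 4 := le_max_left _ _
  generalize max L1 4 = Λ at hΛ4 hΛL hch0
  have hΛ : 0 < Λ := by linarith
  refine ⟨max (M0 * Λ) M, lt_max_of_lt_right hM, ?_⟩
  intro a b J δ0 h c r hc hcr hr hrr hF hω
  by_cases hne : r = c
  · rw [hne]
    intro δ hδ
    obtain ⟨e, R, he, h1, h2, h3⟩ := hF δ hδ
    exact ⟨e, R, he, (mul_le_mul_of_nonneg_right (le_max_right _ _) he.le).trans h1, h2, h3⟩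
  intro δ hδ
  obtain ⟨A, δl, -, hδl, -, hloc⟩ := loc h
  obtain ⟨κ0, κ1, hκ0, hκb⟩ := kp_bds h
  have hC1 : ∀ c ∈ J, Cr a b c → AU * kp a b c ≤ AU * κ1 := by
    intro c hc hcc
    have := AU_ge
    exact mul_le_mul_of_nonneg_left (hκb c hc hcc).2 (by linarith)
  have hδ0 := h.hδ
  set δ' : ℝ := min δ (min δl δ0) with hδ'
  have hδ'p : 0 < δ' := lt_min hδ (lt_min hδl hδ0)
  have hδ'1 : δ' ≤ δ := min_le_left _ _
  have hδ'2 : δ' ≤ δl := (min_le_right _ _).trans (min_le_left _ _)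
  have hδ'3 : δ' ≤ δ0 := (min_le_right _ _).trans (min_le_right _ _)
  obtain ⟨r1, hr1, hch'⟩ := hch0 h (AU * κ1) hC1 δ' hδ'p
  obtain ⟨e0, r0, he0, hMe', hrδ, hcol⟩ := hF (min r1 δ0) (lt_min hr1 hδ0)
  have hMe : M0 * Λ * e0 ≤ r0 := (mul_le_mul_of_nonneg_right (le_max_left _ _) he0.le).trans hMe'
  have hr0 : 0 < r0 := lt_of_lt_of_le (mul_pos (mul_pos hM0 hΛ) he0) hMe
  have hr01 : r0 ≤ r1 := hrδ.trans (min_le_left _ _)
  have hr02 : r0 ≤ δ0 := hrδ.trans (min_le_right _ _)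
  set t0 : ℝ := r0 / Λ with ht0
  have ht0p : 0 < t0 := div_pos hr0 hΛ
  have hΛt : Λ * t0 = r0 := by
    rw [ht0]
    field_simp
  have h1 : M0 * e0 ≤ t0 := by
    rw [ht0, le_div_iff₀ hΛ]
    calc M0 * e0 * Λ = M0 * Λ * e0 := by ring
      _ ≤ r0 := hMe
  have h2 : L1 * t0 ≤ r0 := by
    rw [← hΛt]
    exact mul_le_mul_of_nonneg_right hΛL ht0p.le
  have hchs := hch' c hc hcr e0 t0 r0 he0 h1 h2 hΛt.ge hr01 hcol
  have hex := hω (2 * t0) (by linarith)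
  classical
  obtain ⟨hm0, hm1⟩ := Nat.find_spec hex
  have hmin : ∀ j, j < Nat.find hex → ¬ (0 < j ∧ r ∈ (pre a b)^[j] (ball c (2 * t0))) :=
    fun j hj => Nat.find_min hex hj
  generalize Nat.find hex = m at hm0 hm1 hmin
  have hfar : ∀ j, 0 < j → j < m → t0 ≤ ‖(gg a b)^[j] r - c‖ := by
    intro j hj0 hjm
    by_contra hlt
    rw [not_le] at hlt
    apply hmin j hjm
    refine ⟨hj0, mem_pre.2 ⟨fun i hi => (mem_pre.1 hm1).1 i (by omega), ?_⟩⟩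
    rw [mem_ball, dist_eq_norm]
    linarith
  have hcN : ball c r0 ⊆ NJ J δ0 := fun w hw => ⟨c, hc, ball_subset_ball hr02 hw⟩
  have hmr := (mem_pre.1 hm1).2
  rcases hchs m r hm0 hm1 hfar with ⟨ψ, hψ, hψr⟩ |
    ⟨k1, k2, q1, q2, y, e1, t1, s1, r1', e2, t2, s2, r2, ψ, γ, hFol, -, hFr, hMe1, -, hz, hψr, -, -, -⟩
  · exfalso
    have hu : (gg a b)^[m] r ∈ ball c r0 := by
      refine ball_subset_ball ?_ hmr
      nlinarith
    have h3 := b_nc h hcN hψ hu hm0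
    rw [Function.iterate_zero, id, hψr] at h3
    exact h3 hrr.2
  · have hqN : ball q1 r1' ⊆ NJ J δ0 :=
      fun w hw => ⟨q1, hFol.q1J, ball_subset_ball (hFol.r1δ.trans hδ'3) hw⟩
    have hz' : (gg a b)^[k1] r ∈ ball q1 r1' := ball_subset_ball hFr.sr hz
    have hk : k1 = 0 := by
      by_contra hk
      have h3 := b_nc h hqN hFol.br1 hz' (Nat.pos_of_ne_zero hk)
      rw [Function.iterate_zero, id, hψr] at h3
      exact h3 hrr.2
    subst hk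
    rw [Function.iterate_zero, id] at hz
    have hq : r = q1 := by
      by_contra hq
      have h3 := (hloc q1 hFol.q1J hFol.w1).2.1 r hr hrr hq
      rw [mem_ball, dist_eq_norm] at hz
      have h4 := hFr.sr
      have h5 := hFol.r1δ
      linarith
    subst hq
    have he1 := hFr.he
    refine ⟨e1, r1', he1, ?_, hFol.r1δ.trans hδ'1, ?_⟩
    · have h3 : M * e1 ≤ max M 4 * e1 := mul_le_mul_of_nonneg_right (le_max_left _ _) he1.le
      have h4 := hFr.ts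
      have h5 := hFr.sr
      linarith
    · rintro x ⟨hxP, hxb⟩
      have h3 := hFr.map x hxb
      rw [Nat.sub_zero] at h3
      have h4 : (gg a b)^[m] x ∈ PJ a b J := p_inv h hxP (pre_mono (subset_univ _) h3)
      have h5 := hcol ⟨h4, (mem_pre.1 h3).2⟩
      have h6 := hFr.eps x hxb
      rw [Nat.sub_zero] at h6
      exact h6 h5

end Pool.Agent.H83.BE
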