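import Pool.Agent.H83.UP.KP3
import Pool.Agent.H39.BE.Defs

/-!
# THEOREM BEAU: the kernel data `KV`, Julia set not the sphere

As `kd_p` (H83/UP/KP3, the proof is a copy), with the vector of the velocities: `tv` is `ki3` (constant `CQ`), `tx` is `VP.tri`.
-/

set_option autoImplicit false

open Filter Topology Polynomial Metric Set MeasureTheory

namespace Pool.Agent.H83.BE

open Pool.Agent.H61.TT Pool.Agent.H57.CP Pool.Agent.H3.NC Pool.Agent.H78.NS Pool.Agent.H31.NS Pool.Agent.H18.UP Pool.Agent.H66.UP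
open Pool.Agent.H83.UP
open Pool.Agent.H39.BE (KV CQ)

variable {d D : ℕ} {a b : Polynomial ℂ} {J : Set ℂ} {δ0 R0 : ℝ}

private theorem lg_nonneg {x y z : ℂ} (hxy : x ≠ y) (hle : ‖x - y‖ ≤ ‖z - y‖) :
    0 ≤ Real.log (‖z - y‖ / ‖x - y‖) := by
  have hp : 0 < ‖x - y‖ := norm_pos_iff.2 (sub_ne_zero.2 hxy)
  exact Real.log_nonneg ((one_le_div hp).2 hle)

private theorem ne_of_le {x y z : ℂ} (hxy : x ≠ y) (hle : ‖x - y‖ ≤ ‖z - y‖) : z ≠ y := by
  have hp : 0 < ‖x - y‖ := norm_pos_iff.2 (sub_ne_zero.2 hxy)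
  exact sub_ne_zero.1 (norm_pos_iff.1 (hp.trans_le hle))

/-- the derivative of the vector field at a second critical point -/
private theorem der_e {c0 c : ℂ} (hc : Cr a b c) (hne : c ≠ c0) (η : Polynomial ℂ)
    (h2 : ∀ x : ℂ, x ≠ c0 → b.eval x ≠ 0 → η.eval x / b.eval x ^ 2 = dg a b x * qq x c0) :
    deriv (fun z => η.eval z / b.eval z ^ 2) c = (derivative (ww a b)).eval c / b.eval c ^ 2 * qq c c0 := by
  have hb := hc.1
  have h3 : (fun z => η.eval z / b.eval z ^ 2) =ᶠ[𝓝 c] fun z => dg a b z * qq z c0 := by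
    have h4 : ∀ᶠ z in 𝓝 c, z ≠ c0 := isOpen_ne.mem_nhds hne
    have h5 : ∀ᶠ z in 𝓝 c, b.eval z ≠ 0 := (b.continuous.continuousAt).eventually_ne hb
    filter_upwards [h4, h5] with z h6 h7
    exact h2 z h6 h7
  rw [h3.deriv_eq]
  have hd : HasDerivAt (dg a b) ((derivative (ww a b)).eval c / b.eval c ^ 2) c := by
    have h4 := ((ww a b).hasDerivAt c).div ((b.hasDerivAt c).pow 2) (pow_ne_zero 2 hb)
    rw [hc.2] at h4
    have e : ((fun x => eval x b) ^ 2) c = b.eval c ^ 2 := rfl
    rw [e] at h4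
    refine h4.congr_deriv ?_
    field_simp
    ring
  have hk : DifferentiableAt ℂ (fun z => qq z c0) c := by
    unfold qq
    have h4 : c0 - c ≠ 0 := sub_ne_zero.2 (Ne.symm hne)
    exact DifferentiableAt.div (by fun_prop) (by fun_prop) h4
  have h4 := (hd.mul hk.hasDerivAt).deriv
  have h5 : dg a b c = 0 := by
    unfold dg
    rw [hc.2, zero_div]
  rw [h5, zero_mul, add_zero] at h4
  exact h4

theorem kv_p (h : US0 d D a b J δ0 R0) {C0 : ℝ} {V : ℕ → ℂ → ℂ} (hV : VP D a b J C0 V) {c0 : ℂ} (hcJ : c0 ∈ J)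
    (hw : (ww a b).eval c0 = 0) :
    ∃ (δ1 R C : ℝ) (r K : ℂ → ℂ → ℂ) (Y : ℂ → ℂ) (N : ℕ) (hh : ℕ → ℂ → ℂ),
      KV a b J (ZV a b (NJ J δ0)) c0 δ1 R C qq r K Y N hh V := by
  have h1 := h.ns
  have hδ0 := h1.hδ0
  have hb0 : b.eval c0 ≠ 0 := h1.Jn c0 hcJ
  obtain ⟨hh, hi, hl⟩ := hcoP h1 (z_meas h1) (z_bd h1) z_pre
  obtain ⟨η, hη, hη1, hη2⟩ := eta_p h hw
  have hY := vj_lin hV hη
  obtain ⟨Y, hYd⟩ : ∃ Y : ℂ → ℂ, Y = fun x => ∑ j ∈ Finset.range (D + 1), η.coeff j * V j x := ⟨_, rfl⟩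
  obtain ⟨C2, hC2d⟩ : ∃ C2 : ℝ, C2 = C0 * ∑ j ∈ Finset.range (D + 1), ‖η.coeff j‖ := ⟨_, rfl⟩
  rw [← hYd, ← hC2d] at hY
  have hC2 := hY.hC
  obtain ⟨C1, hC1, hT⟩ := tri_p hV hi
  have hC00 := hV.hC
  have hCa : C1 ≤ 1 + C1 + C2 + C0 := by linarith
  have hCb : C2 ≤ 1 + C1 + C2 + C0 := by linarith
  have hCc : C0 ≤ 1 + C1 + C2 + C0 := by linarith
  have hJR : ∀ x ∈ J, ‖x‖ ≤ R0 := fun x hx => z_bd h1 x (z_ball hx (mem_ball_self hδ0))
  refine ⟨δ0, R0 + 1, 1 + C1 + C2 + C0, fun _ _ => 0, KQ D hh V, Y, D + 1, hh, ?_⟩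
  refine
    { hδ := hδ0
      hC := by linarith
      cJ := hcJ
      c0c := ⟨hb0, hw⟩
      crR := fun c hc _ => by
        have := hJR c hc
        linarith
      Zm := z_meas h1
      Zp := z_pre
      Zb := z_ball hcJ
      rq := fun x _ w _ _ => by
        rw [add_zero]
        rfl
      rh := fun x _ => differentiableOn_const 0
      qi := fun x _ => qq_int (z_meas h1) (z_bd h1) x
      Ki := fun x _ => by
        refine Integrable.add (qq_int (z_meas h1) (z_bd h1) x) (integrable_finsetSum _ fun j _ => ?_)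
        exact Integrable.mul_const (hi j) _
      step := fun x hxJ _ hx => (step_p h hV hl hxJ hx).mono fun w hw' _ => hw'
      crit := fun c hcJ' hc => (crit_p h hV hl hcJ' hc.2).mono fun w hw' _ => hw'
      val0 := fun c hcJ' hc => (val0_p h hV hl hcJ' hc.2).mono fun w hw' _ => hw'
      tri := fun x hx y hy z hz _ _ _ hxy hle => by
        refine (hT x hx y hy z hz hxy hle).trans (ENNReal.ofReal_le_ofReal ?_)
        rw [mul_assoc, mul_assoc]
        exact mul_le_mul_of_nonneg_right hCa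
          (mul_nonneg (norm_nonneg _) (add_nonneg zero_le_one (lg_nonneg hxy hle)))
      Yb := fun x hx _ => (hY.bd x hx).trans hCb
      Ys := fun x hxJ hb hx => by
        have hne : x ≠ c0 := by
          rintro rfl
          apply hx
          unfold dg
          rw [hw, zero_div]
        rw [hY.eq x hxJ, hη1 x hne hb]
        field_simp
        ring
      Yc := fun c hcJ' hc hne => by
        have h2 := vj_crit h hY hcJ' hc.2
        rw [der_e hc hne η hη1, ← mul_add] at h2
        have h3 : (derivative (ww a b)).eval c / b.eval c ^ 2 ≠ 0 :=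
          div_ne_zero (sim_p h hV hcJ' hc.2) (pow_ne_zero 2 hc.1)
        exact eq_neg_of_add_eq_zero_left ((mul_eq_zero.1 h2).resolve_left h3)
      Yv := by
        rw [hY.eq c0 hcJ, hη2]
        unfold dg
        rw [hw, zero_div, zero_mul, zero_add]
      Yt := fun x hx y hy z hz _ _ _ hxy hle => by
        have h2 := hY.tri x hx y hy z hz hxy (ne_of_le hxy hle)
        rw [abs_of_nonneg (lg_nonneg hxy hle)] at h2
        refine h2.trans ?_
        rw [mul_assoc, mul_assoc]
        exact mul_le_mul_of_nonneg_right hCb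
          (mul_nonneg (norm_nonneg _) (add_nonneg zero_le_one (lg_nonneg hxy hle)))
      hi := fun j _ => hi j
      tv := fun x _ y _ z _ _ _ _ hxy hle => by
        have h0 := (Classical.choose_spec ki3).2 x y z hxy hle
        refine le_trans (le_of_eq ?_) ((setLIntegral_le_lintegral (ZV a b (NJ J δ0)) _).trans h0)
        refine lintegral_congr fun w => ?_
        congr 1
        have e1 : ∑ j ∈ Finset.range (D + 1), hh j w * (V j x - V j y - (x - y) / (z - y) * (V j z - V j y)) =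
            ∑ j ∈ Finset.range (D + 1), hh j w * V j x - ∑ j ∈ Finset.range (D + 1), hh j w * V j y -
              (x - y) / (z - y) * (∑ j ∈ Finset.range (D + 1), hh j w * V j z -
                ∑ j ∈ Finset.range (D + 1), hh j w * V j y) := by
          rw [← Finset.sum_sub_distrib, ← Finset.sum_sub_distrib, Finset.mul_sum, ← Finset.sum_sub_distrib]
          refine Finset.sum_congr rfl fun j _ => ?_
          ring
        rw [e1]
        unfold KQ qq
        ring
      tx := fun j hj x hx y hy z hz _ _ _ hxy hle => by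
        have h2 := hV.tri j (Nat.lt_succ_iff.1 hj) x hx y hy z hz hxy (ne_of_le hxy hle)
        rw [abs_of_nonneg (lg_nonneg hxy hle)] at h2
        refine h2.trans ?_
        rw [mul_assoc, mul_assoc]
        exact mul_le_mul_of_nonneg_right hCc
          (mul_nonneg (norm_nonneg _) (add_nonneg zero_le_one (lg_nonneg hxy hle))) }

end Pool.Agent.H83.BE
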