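import Pool.Agent.H83.BE.ALV
import Pool.Agent.H64.BE.MBD
import Pool.Agent.H57.CF.ALF

/-!
# THEOREM BEAU: all data for Julia set not the sphere, conformal charts

`red_gen_m` (H57/CF/ALF), `allm_up`, `allm_upF` (H83/BE/ALV): the proofs are copies, with `MobC φ`, `¬ Up u` (`¬ UpF d l z`) in the conclusion.
-/

set_option autoImplicit false

open Filter Topology Polynomial Metric Set MeasureTheory

namespace Pool.Agent.H83.BE

open Pool.Agent.H44.Fatou (rat rat_continuous ev wv crit_coe rat_coe_of_ne)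
open Pool.Agent.H56.HR (FS EqAt)
open Pool.Agent.H32.BT Pool.Agent.H79.Eul Pool.Agent.H79.Par Pool.Agent.H47.NN Pool.Agent.H44.ND
open Pool.Agent.H79.ES Pool.Agent.H35.EX Pool.Agent.H44.RC Pool.Agent.H47.RJ Pool.Agent.H84.BR
open Pool.Agent.H61.TT Pool.Agent.H57.CP Pool.Agent.H3.NC Pool.Agent.H57.CF Pool.Agent.H47.NM Pool.Agent.H47.PS
open Pool.Agent.H64.NC Pool.Agent.H18.UP Pool.Agent.H66.UP Pool.Agent.H83.UP Pool.Agent.H64.BE
open Pool.Agent.H44.CP Pool.Agent.H44.RG Pool.Agent.H80.AJ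
open Pool.Agent.H39.BE (KV)

variable {d k : ℕ} {v : E d}

theorem red_gen_m (hd : 2 ≤ d) (hk : 2 ≤ k) (hkd : k ≤ d) {x : Em d k} (hcop : IsCoprime (pol x.1) (pol x.2))
    (hdeg : max (pol x.1).natDegree (pol x.2).natDegree = d) :
    ∃ (l : ℕ) (z : Em d l) (φ : OnePoint ℂ ≃ₜ OnePoint ℂ) (K : ℝ), 2 ≤ l ∧ l ≤ d ∧ GenM d l (pol z.1) (pol z.2) ∧
      (∀ x y, chord (φ x) (φ y) ≤ K * chord x y ∧ chord x y ≤ K * chord (φ x) (φ y)) ∧
      (∀ y, Rf (ex d l z) (φ y) = φ (Rf (ex d k x) y)) ∧ MobC φ ∧ (UpF d l z → UpF d k x) := by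
  obtain ⟨l, y, hkl, hld, hn, rfl⟩ := em_sur hkd x
  have hl2 : 2 ≤ l := by omega
  rw [em_pol hkl y] at hcop hdeg hn
  have hcop' : IsCoprime (pol y.1) (pol y.2) := hcop
  have hdeg' : max (pol y.1).natDegree (pol y.2).natDegree = d := hdeg
  have ha := fam_a hl2 hld hdeg'
  have hQ0 : pol y.2 ≠ 0 := den_ne_zero hcop' (by rw [hdeg']; omega)
  have hR0 : pol y.1 - X * pol y.2 ≠ 0 := by
    intro h
    have h1 := sub_eq_zero.1 h
    have h2 : (X * pol y.2).natDegree ≤ d - l + 1 := by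
      refine natDegree_mul_le.trans ?_
      rw [natDegree_X]
      have := pol_deg y.2
      omega
    rw [← h1, ha] at h2
    omega
  obtain ⟨s, hs⟩ : ∃ s : ℂ, (pol y.2 * (pol y.1 - X * pol y.2)).eval s ≠ 0 := by
    by_contra hno
    push Not at hno
    exact mul_ne_zero hQ0 hR0 (Polynomial.funext fun r => by rw [hno r, eval_zero])
  rw [eval_mul, eval_sub, eval_mul, eval_X] at hs
  have hs2 := left_ne_zero_of_mul hs
  have hs1 := right_ne_zero_of_mul hs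
  have hg : GenM d l (pol (Tr d l s y).1) (pol (Tr d l s y).2) := by
    refine ⟨tr_cop hcop', tr_dega hl2 hld hdeg', by rw [tr_degb, hn], ?_, ?_⟩
    · rw [pol_tr1, eval_sub, eval_mul, eval_C, eval_comp, eval_comp, eval_add, eval_X, eval_C, zero_add]
      exact hs1
    · rw [pol_tr2, eval_comp, eval_add, eval_X, eval_C, zero_add]
      exact hs2
  obtain ⟨φ, h1, -, hM, K, hK⟩ := mobc_tr s
  refine ⟨l, Tr d l s y, φ, K, hl2, hld, hg, hK, ?_, hM, ?_⟩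
  · rw [em_ex hkl]
    exact tr_conj hd hcop' hdeg' h1 hl2 hld
  · intro h
    exact em_up hkl (tr_up hd hl2 hld s hcop' hdeg' h)

theorem allm_up (hd : 2 ≤ d) (hcop : IsCoprime (pol v.1) (pol v.2))
    (hdeg : max (pol v.1).natDegree (pol v.2).natDegree = d) (hup : ¬ Up v)
    (hF : (FS (Rf v)).Nonempty) {c : OnePoint ℂ} (hc : IsCrit (Rf v) c) (hcJ : c ∈ JS (Rf v)) :
    ∃ (u : E d) (φ : OnePoint ℂ ≃ₜ OnePoint ℂ) (K : ℝ) (T : Set (OnePoint ℂ)),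
      (∀ x y, chord (φ x) (φ y) ≤ K * chord x y ∧ chord x y ≤ K * chord (φ x) (φ y)) ∧
      (∀ x, Rf u (φ x) = φ (Rf v x)) ∧ MobC φ ∧ ¬ Up u ∧ GA u T ∧ DATV d (pol u.1) (pol u.2) (JC u) := by
  obtain ⟨x0, hx0⟩ := hF
  obtain ⟨z, n, hs, -⟩ := Pool.Agent.H64.MJ.fs_att hd hcop hdeg hup hx0
  obtain ⟨p1, p2, h12, h1z, h2z⟩ : ∃ p1 p2 : OnePoint ℂ, p1 ≠ p2 ∧ p1 ≠ z ∧ p2 ≠ z := by
    have hinf : (({z} : Set (OnePoint ℂ))ᶜ).Infinite := (finite_singleton z).infinite_compl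
    obtain ⟨p1, hp1⟩ := hinf.nonempty
    obtain ⟨p2, hp2⟩ := (hinf.sdiff (finite_singleton p1)).nonempty
    exact ⟨p1, p2, fun h => hp2.2 h.symm, hp1, hp2.1⟩
  obtain ⟨L, G, φ, K, ⟨hch, hMob⟩, -, -, -, fi⟩ := ch_three_m (d := d) hd h12 h1z h2z
  obtain ⟨hcop1, hdeg1, hφ⟩ := hch.conj v hcop hdeg
  have hup1 : ¬ Up (L v) := fun h =>
    hup (up_chart hd hch.cG hch.invL hch.invR (fun v h3 h4 => (hch.conj v h3 h4).2.2) hcop hdeg h)
  have hs1 : IsSink (Rf (L v)) OnePoint.infty n := by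
    rw [← fi]
    exact (isSink_conj φ hφ z n).2 hs
  obtain ⟨T, hT, hTi⟩ := trap_of_sink hcop1 (by rw [hdeg1]; exact hd) hs1
  have hGA : GA (L v) T :=
    ⟨hd, hcop1, hdeg1, fun p hp x m hcy hm => hup1 (Pool.Agent.H44.CP.neu_up hd hcop1 hdeg1 hp hcy hm),
      fun x hx => Pool.Agent.H44.NR.att_in hd hcop1 hdeg1 hup1 hx,
      fun x hx => Pool.Agent.H64.MJ.fs_att hd hcop1 hdeg1 hup1 hx, hT, hTi⟩
  have hJ : φ c ∈ JS (Rf (L v)) := fun h1 => hcJ ((Pool.Agent.H76.SU.fs_conj hch.bil hφ c).1 h1)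
  have hi : φ c ≠ OnePoint.infty := by
    intro h1
    rw [h1] at hJ
    exact hJ hGA.fi
  obtain ⟨c1, hc1⟩ := OnePoint.ne_infty_iff_exists.1 hi
  have hcr : IsCrit (Rf (L v)) (c1 : OnePoint ℂ) := by
    rw [hc1]
    exact (isCrit_conj φ hφ c).2 hc
  rw [← hc1] at hJ
  exact ⟨L v, φ, K, T, hch.bil, hφ, hMob, hup1, hGA, datv_up hGA hup1 hcr hJ⟩

theorem allm_upF {k : ℕ} (hd : 2 ≤ d) (hk : 2 ≤ k) (hkd : k ≤ d) {x : Em d k} (hcop : IsCoprime (pol x.1) (pol x.2))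
    (hdeg : max (pol x.1).natDegree (pol x.2).natDegree = d) (hup : ¬ UpF d k x)
    {c : OnePoint ℂ} (hc : IsCrit (Rf (ex d k x)) c) (hcJ : c ∈ JS (Rf (ex d k x))) :
    ∃ (l : ℕ) (z : Em d l) (φ : OnePoint ℂ ≃ₜ OnePoint ℂ) (K : ℝ) (T : Set (OnePoint ℂ)), 2 ≤ l ∧ l ≤ d ∧
      GenM d l (pol z.1) (pol z.2) ∧ ¬ UpF d l z ∧
      (∀ x y, chord (φ x) (φ y) ≤ K * chord x y ∧ chord x y ≤ K * chord (φ x) (φ y)) ∧
      (∀ y, Rf (ex d l z) (φ y) = φ (Rf (ex d k x) y)) ∧ MobC φ ∧ GA (ex d l z) T ∧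
      DATV d (pol (ex d l z).1) (pol (ex d l z).2) (JC (ex d l z)) := by
  obtain ⟨l, y, φ, K, hl, hld, hg, hK, hφ, hMob, hup'⟩ := red_gen_m hd hk hkd hcop hdeg
  have hupy : ¬ UpF d l y := fun h => hup (hup' h)
  obtain ⟨T, hGA⟩ := ga_gen hd hl hld hg hupy
  have hJ : φ c ∈ JS (Rf (ex d l y)) := fun h1 => hcJ ((Pool.Agent.H76.SU.fs_conj hK hφ c).1 h1)
  have hi : φ c ≠ OnePoint.infty := by
    intro h1
    rw [h1] at hJ
    exact hJ hGA.fi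
  obtain ⟨c1, hc1⟩ := OnePoint.ne_infty_iff_exists.1 hi
  have hcr : IsCrit (Rf (ex d l y)) (c1 : OnePoint ℂ) := by
    rw [hc1]
    exact (isCrit_conj φ hφ c).2 hc
  rw [← hc1] at hJ
  exact ⟨l, y, φ, K, T, hl, hld, hg, hupy, hK, hφ, hMob, hGA, datv_upF hd hl hld hg hupy hGA hcr hJ⟩

end Pool.Agent.H83.BE
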