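import Pool.Agent.H18.UP.CN1
import Pool.Agent.H83.BE.CHNU

/-!
# THEOREM BEAU: the central domain with the sharp bound

As `H18/UP/CN1` (the proof is a copy); `Ce1` is obtained with the constant `B` of `Chq` in the place of `C1`.
-/


set_option autoImplicit false

open Filter Topology Polynomial Metric Set MeasureTheory

namespace Pool.Agent.H83.BE

open Pool.Agent.H44.Fatou (rat rat_continuous)
open Pool.Agent.H80.AJ (Br KK one_le_KK KK_pos distort distort_lip deriv_ne univ_cover)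
open Pool.Agent.H32.BT (IsCrit)
open Pool.Agent.H61.TT Pool.Agent.H57.CP Pool.Agent.H3.NC Pool.Agent.H18.UP
open Pool.Agent.H39.BE (kp)

variable {d : ℕ} {a b : Polynomial ℂ} {J : Set ℂ} {δ0 : ℝ}

theorem cn1_u (h : Geo d a b J δ0) : ∃ δ1 : ℝ, 0 < δ1 ∧ ∀ (c0 : ℂ) (e0 ρ ρ1 M L K C1 B δ : ℝ) (V : Set ℂ),
    GW a b J δ0 c0 e0 ρ ρ1 M L K C1 δ V → Chq a b J c0 e0 ρ ρ1 M L K C1 B δ → δ ≤ δ1 → Rcr a b c0 → ∃ (C0 : Set ℂ) (m0 k2 : ℕ) (q2 : ℂ) (t1 s1 e2 t2 s2 r2 : ℝ),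
    Ce1 a b J c0 e0 ρ ρ1 M L K B δ V C0 m0 k2 q2 t1 s1 e2 t2 s2 r2 := by
  obtain ⟨A, δ1, hA, hδ1, hδ1', hloc⟩ := loc h
  refine ⟨δ1, hδ1, ?_⟩
  intro c0 e0 ρ ρ1 M L K C1 B δ V hG hQ hδ hR
  have hρ := hG.nic.hρ
  have hL := hG.hL
  have hNJ : ∀ q ∈ J, ∀ r : ℝ, r ≤ δ → ball q r ⊆ NJ J δ0 := by
    intro q hq r hr x hx
    exact ⟨q, hq, ball_subset_ball (hr.trans hG.δδ0) hx⟩
  have h2ρ : 2 * ρ ≤ ρ1 := by nlinarith [hG.ρρ1]
  have hVρ1 : V ⊆ ball c0 ρ1 := hG.nic.out.trans (ball_subset_ball h2ρ)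
  have hc0V : c0 ∈ V := hG.nic.inn (mem_ball_self hρ)
  obtain ⟨n, hn, hn'⟩ := hR ρ hρ
  obtain ⟨m0, W, hW, hcW, -⟩ := wdc (a := a) (b := b) (V := V) c0 hc0V ⟨n, hn, pre_mono hG.nic.inn hn'⟩
  have hRet := wdr h hG m0 W hW
  have hpV := hRet.ret c0 hcW
  have hgV : (gg a b)^[m0] c0 ∈ V := (mem_pre.1 hpV).2
  have hfar : ∀ j, 0 < j → j < m0 → ρ ≤ ‖(gg a b)^[j] c0 - c0‖ := by
    intro j hj hjm
    by_contra hc
    push Not at hc
    exact hRet.fst c0 hcW j hj hjm (hG.nic.inn (mem_ball_iff_norm.2 hc))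
  rcases hQ m0 c0 hRet.pos (pre_mono hG.nic.out hpV) hfar with
    ⟨ψ, hψ, hψ0⟩ | ⟨k1, k2, q1, q2, y, e1, t1, s1, r1, e2, t2, s2, r2, ψ, γ, hF, hk2, hFr1, hMe1, hFr2, hin, hψz, heq, hr1, hB⟩
  · exfalso
    have h1 := b_nc h (hNJ c0 hG.cJ ρ1 hG.ρ1δ) hψ (hVρ1 hgV) hRet.pos
    rw [hψ0] at h1
    exact h1 hG.cr.2
  have hs1 : 0 < s1 := hF.t1p.trans_le hF.ts1
  have hs1r : s1 < r1 := by nlinarith [hF.rs1]
  have ht2 : 0 < t2 := lt_of_lt_of_le (by nlinarith [hF.e2p, hG.hM]) hF.te2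
  have he2 : e2 < t2 := by nlinarith [hF.te2, hF.e2p, hG.hM]
  have hs2 : 0 < s2 := ht2.trans_le hF.ts2
  have hs2r : s2 < r2 := by nlinarith [hF.rs2]
  have hN1 := hNJ q1 hF.q1J r1 hF.r1δ
  have hN2 := hNJ q2 hF.q2J r2 hF.r2δ
  have hk1 : k1 = 0 := by
    by_contra hk
    have h1 := b_nc h hN1 hF.br1 (ball_subset_ball hs1r.le hin) (Nat.pos_of_ne_zero hk)
    rw [hψz] at h1
    exact h1 hG.cr.2
  subst hk1
  have hq1 : q1 = c0 := by
    by_contra hne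
    have h1 := (hloc c0 hG.cJ hG.cr).2.1 q1 hF.q1J hF.w1 hne
    have h2 : ‖c0 - q1‖ < s1 := mem_ball_iff_norm.1 hin
    rw [norm_sub_rev] at h2
    have h3 := hF.r1δ
    linarith
  subst hq1
  have hkk : k2 - 0 - 1 + 1 = k2 := by have := hF.lt; omega
  have hyr : y ∈ ball q2 r2 := by
    have h1 : ‖y - q2‖ ≤ e2 := by simpa [mem_closedBall_iff_norm, dist_eq_norm] using hF.yq
    exact mem_ball_iff_norm.2 (by linarith [hF.ts2])
  have hgy : (gg a b)^[k2] q1 = y := by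
    have h1 := b_gg h hN2 hF.br2 hyr
    rw [hF.yv, ← Function.iterate_succ_apply, Nat.succ_eq_add_one, hkk] at h1
    exact h1
  have hder := b_der h hN2 hF.br2 hyr
  rw [hF.yv] at hder
  have hk20 : k2 - 0 - 1 = k2 - 1 := by omega
  rw [hk20] at hder
  have hm0 : m0 - 0 = m0 := Nat.sub_zero m0
  have hball : ball q1 t1 ⊆ W := by
    refine hRet.cmp q1 hcW _ (convex_ball _ _).isPreconnected (mem_ball_self hF.t1p) fun x hx => ?_
    have h1 := hFr1.map x (ball_subset_ball (hF.ts1.trans hs1r.le) hx)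
    rw [hm0] at h1
    refine mem_pre.2 ⟨(mem_pre.1 h1).1, hG.nic.inn ?_⟩
    have h2 := hFr1.inn x hx
    rwa [hm0] at h2
  have hWs : W ⊆ ball q1 s1 := by
    refine in_ball hRet.con hs1r (fun x hx hxr => ?_) hcW (mem_ball_self hs1)
    refine hFr1.out x hxr ?_
    rw [hm0]
    exact hG.nic.out (mem_pre.1 (hRet.ret x hx)).2
  refine ⟨W, m0, k2, q2, t1, s1, e2, t2, s2, r2, ⟨hRet.pos, hW, hcW, hF.t1p, hball, hWs, hF.st1, ?_, hF.lt, hk2,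
    hF.q2J, hF.w2, hFr2, ?_, hF.te2, hF.st2, hF.rs2, hF.r2δ, ?_, ?_, ?_, heq, ?_⟩⟩
  · have h1 := hr1 rfl rfl
    have h2 : (L * s1) ^ 2 ≤ r1 ^ 2 := pow_le_pow_left₀ (by positivity) hF.rs1 2
    linarith
  · rw [hgy]
    simpa [mem_closedBall_iff_norm, dist_eq_norm] using hF.yq
  · exact right_ne_zero_of_mul_eq_one hder
  · rw [← norm_inv, ← eq_inv_of_mul_eq_one_left hder]
    exact hB rfl
  · intro hlt hq2V
    have h1 : ball q2 t2 ⊆ V := by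
      refine hG.nic.nic (m0 - k2) (by omega) _ (convex_ball _ _).isPreconnected (fun x hx => ?_)
        ⟨q2, mem_ball_self ht2, hq2V⟩
      exact hFr2.map x (ball_subset_ball (hF.ts2.trans hs2r.le) hx)
    refine hRet.fst q1 hcW k2 hF.lt hlt (h1 ?_)
    rw [hgy]
    have h2 : ‖y - q2‖ ≤ e2 := by simpa [mem_closedBall_iff_norm, dist_eq_norm] using hF.yq
    exact mem_ball_iff_norm.2 (by linarith)
  · intro u hu
    obtain ⟨x', hx', hγ⟩ := hF.lift u (ball_subset_ball hs1r.le (hWs hu))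
    have h1 := b_gg h hN2 hF.br2 hx'
    rw [hγ, ← Function.iterate_succ_apply, Nat.succ_eq_add_one, hkk] at h1
    rw [h1]
    refine hFr2.out x' hx' (hG.nic.out ?_)
    have h2 := (mem_pre.1 (hRet.ret u hu)).2
    rw [← h1, ← Function.iterate_add_apply, Nat.sub_add_cancel hk2]
    exact h2

end Pool.Agent.H83.BE
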