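import Pool.Agent.H18.UP.GEO
import Pool.Agent.H83.BE.CN1U

/-!
# THEOREM BEAU: the output of the geometric part with universal constants

As `H18/UP/GEO` (the proof is a copy) with `chn_u`, `cn1_u`: `K` depends only on `θ`, `M2` only on `d, θ, η, M`; the constant `C1` of `Cen` is `K * kp c0`.
-/


set_option autoImplicit false

open Filter Topology Polynomial Metric Set MeasureTheory

namespace Pool.Agent.H83.BE

open Pool.Agent.H44.Fatou (rat rat_continuous)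
open Pool.Agent.H80.AJ (Br KK one_le_KK KK_pos distort distort_lip deriv_ne univ_cover)
open Pool.Agent.H32.BT (IsCrit)
open Pool.Agent.H61.TT Pool.Agent.H57.CP Pool.Agent.H3.NC Pool.Agent.H18.UP
open Pool.Agent.H39.BE (kp FatM Rng)

variable {d : ℕ} {a b : Polynomial ℂ} {J : Set ℂ} {δ0 : ℝ}

private theorem fol_mono {M L K C1 δ M' L' K' C1' δ' : ℝ} (hM : M' ≤ M) (hL : L' ≤ L) (hK : K ≤ K') (hC : C1 ≤ C1') (hδ : δ ≤ δ')
    {k1 k2 : ℕ} {q1 q2 y : ℂ} {t1 s1 r1 e2 t2 s2 r2 : ℝ} {ψ γ : ℂ → ℂ} (ht2 : 0 < t2)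
    (hF : Fol a b J M L K C1 δ k1 k2 q1 q2 y t1 s1 r1 e2 t2 s2 r2 ψ γ) :
    Fol a b J M' L' K' C1' δ' k1 k2 q1 q2 y t1 s1 r1 e2 t2 s2 r2 ψ γ where
  lt := hF.lt
  q1J := hF.q1J
  q2J := hF.q2J
  w1 := hF.w1
  w2 := hF.w2
  t1p := hF.t1p
  ts1 := hF.ts1
  st1 := hF.st1.trans (mul_le_mul_of_nonneg_right hK hF.t1p.le)
  rs1 := (mul_le_mul_of_nonneg_right hL (hF.t1p.le.trans hF.ts1)).trans hF.rs1
  r1δ := hF.r1δ.trans hδ
  e2p := hF.e2p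
  te2 := (mul_le_mul_of_nonneg_right hM hF.e2p.le).trans hF.te2
  ts2 := hF.ts2
  st2 := hF.st2.trans (mul_le_mul_of_nonneg_right hK ht2.le)
  rs2 := (mul_le_mul_of_nonneg_right hL (ht2.le.trans hF.ts2)).trans hF.rs2
  r2δ := hF.r2δ.trans hδ
  br1 := hF.br1
  br2 := hF.br2
  yq := hF.yq
  yv := hF.yv
  lift := hF.lift
  lit := hF.lit
  dg := hF.dg.trans (mul_le_mul_of_nonneg_right hC (by positivity))

theorem chq_mono {c0 : ℂ} {e0 t0 r0 M L K C1 B δ M' L' K' C1' δ' : ℝ} (hM : M' ≤ M) (hL : L' ≤ L) (hK : K ≤ K') (hC : C1 ≤ C1')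
    (hδ : δ ≤ δ') (hS : Chq a b J c0 e0 t0 r0 M L K C1 B δ) : Chq a b J c0 e0 t0 r0 M' L' K' C1' B δ' := by
  intro m z hm hz hj
  rcases hS m z hm hz hj with h1 | ⟨k1, k2, q1, q2, y, e1, t1, s1, r1, e2, t2, s2, r2, ψ, γ, hF, hk, hf1, he, hf2, h1, h2, h3, h4, h5⟩
  · exact Or.inl h1
  · refine Or.inr ⟨k1, k2, q1, q2, y, e1, t1, s1, r1, e2, t2, s2, r2, ψ, γ, ?_, hk, hf1, ?_, hf2, h1, h2, h3, h4, h5⟩
    · exact fol_mono hM hL hK hC hδ (hf2.he.trans_le hf2.et) hF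
    · exact (mul_le_mul_of_nonneg_right hM hf1.he.le).trans he

private theorem ce1_mono {c0 : ℂ} {e0 ρ ρ1 M L K C1 C1' δ : ℝ} {V C0 : Set ℂ} {m0 k2 : ℕ} {q2 : ℂ}
    {t1 s1 e2 t2 s2 r2 : ℝ} (hC : C1 ≤ C1') (h : Ce1 a b J c0 e0 ρ ρ1 M L K C1 δ V C0 m0 k2 q2 t1 s1 e2 t2 s2 r2) :
    Ce1 a b J c0 e0 ρ ρ1 M L K C1' δ V C0 m0 k2 q2 t1 s1 e2 t2 s2 r2 where
  m0p := h.m0p
  C0W := h.C0W
  cC := h.cC
  t1p := h.t1p
  inn := h.inn
  out := h.out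
  st1 := h.st1
  s1q := h.s1q
  k2p := h.k2p
  k2m := h.k2m
  q2J := h.q2J
  q2c := h.q2c
  fr := h.fr
  vq := h.vq
  te2 := h.te2
  st2 := h.st2
  rs2 := h.rs2
  r2δ := h.r2δ
  B0 := h.B0
  B := h.B.trans (mul_le_mul_of_nonneg_right hC (by positivity))
  nq := h.nq
  eq := h.eq
  im := h.im

private theorem fld_mono {K η K' η' : ℝ} (hK : K ≤ K') (hη : η ≤ η') {m : ℕ} {W : Set ℂ}
    (hF : Pool.Agent.H43.UP.Fld a b K η m W) : Pool.Agent.H43.UP.Fld a b K' η' m W := by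
  obtain ⟨k1, n2, c1, c2, y, r1, s1, r2, s2, σ2, ψ, G, χ1, χ2, W1, W2, hD⟩ := hF
  refine ⟨k1, n2, c1, c2, y, r1, s1, r2, s2, σ2, ψ, G, χ1, χ2, W1, W2, ?_⟩
  exact
    { km := hD.km
      hs1 := hD.hs1.trans (mul_le_mul_of_nonneg_right hη hD.sq1.hr.le)
      hs2 := hD.hs2.trans (mul_le_mul_of_nonneg_right hη hD.sq2.hr.le)
      hσ := hD.hσ
      hK := hD.hK.trans (mul_le_mul_of_nonneg_right hK hD.hσ.le)
      psi := hD.psi
      sq1 := hD.sq1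
      hW := hD.hW
      W1s := hD.W1s
      br := hD.br
      hy := hD.hy.trans (mul_le_mul_of_nonneg_right hη hD.hσ.le)
      gy := hD.gy
      fW := hD.fW
      sat := hD.sat
      W2o := hD.W2o
      W2s := hD.W2s
      W2b := hD.W2b
      sq2 := hD.sq2 }

private theorem unf_mono {ρ η η' : ℝ} (hρ : 0 < ρ) (hη0 : 0 < η) (hη : η ≤ η') {V W : Set ℂ} {c0 : ℂ} {m : ℕ}
    (hU : Pool.Agent.H43.UP.Unf a b V c0 ρ η m W) : Pool.Agent.H43.UP.Unf a b V c0 ρ η' m W := by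
  obtain ⟨R, G, h1, h2, h3⟩ := hU
  have hR : 0 < R := by
    by_contra hcon
    push Not at hcon
    have h4 : η * R ≤ 0 := mul_nonpos_of_nonneg_of_nonpos hη0.le hcon
    linarith
  exact ⟨R, G, h1.trans (mul_le_mul_of_nonneg_right hη hR.le), h2, h3⟩

/-- the return domain of a critical point is not unfolded -/
private theorem not_unf {ρ η : ℝ} (hρ : 0 < ρ) (hη0 : 0 < η) (hη : η ≤ 1) {V W : Set ℂ} {c0 : ℂ} {m : ℕ} (hm : 0 < m)
    (hV : V ⊆ ball c0 (2 * ρ)) (hcr : Cr a b c0) (hc : c0 ∈ W)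
    (hU : Pool.Agent.H43.UP.Unf a b V c0 ρ η m W) : False := by
  obtain ⟨R, G, h1, h2, h3⟩ := hU
  have hR : 0 < R := by
    by_contra hcon
    push Not at hcon
    have h4 : η * R ≤ 0 := mul_nonpos_of_nonneg_of_nonpos hη0.le hcon
    linarith
  have hR2 : 2 * ρ ≤ R := h1.trans (by nlinarith)
  rw [h3] at hc
  obtain ⟨v, hv, hGv⟩ := hc
  have hvR : v ∈ ball c0 R := ball_subset_ball hR2 (hV hv)
  have hp : G v ∈ (pre a b)^[m] univ := mem_pre.2 ⟨h2.fin v hvR, mem_univ _⟩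
  have h4 : HasDerivAt G (deriv G v) v := (h2.diff.differentiableAt (isOpen_ball.mem_nhds hvR)).hasDerivAt
  have h5 : HasDerivAt ((gg a b)^[m] ∘ G) (tD a b m (G v) * deriv G v) v := (g_diff hp).comp v h4
  have h6 : (gg a b)^[m] ∘ G =ᶠ[𝓝 v] id := by
    filter_upwards [isOpen_ball.mem_nhds hvR] with u hu
    exact h2.inv u hu
  have h7 : HasDerivAt ((gg a b)^[m] ∘ G) 1 v := (hasDerivAt_id v).congr_of_eventuallyEq h6
  have h8 := h5.unique h7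
  have h9 : tD a b m (G v) = 0 := by
    rw [hGv]
    unfold tD
    apply Finset.prod_eq_zero (Finset.mem_range.2 hm)
    show dg a b ((gg a b)^[0] c0) = 0
    unfold dg
    rw [Function.iterate_zero, id, hcr.2, zero_div]
  rw [h9, zero_mul] at h8
  exact zero_ne_one h8

private theorem geo_ar {e0 R ρ Λ M0 M1 θ : ℝ} (he0 : 0 < e0) (hΛ : 2 ≤ Λ) (hM1 : 4 ≤ M1) (hM0 : 0 < M0) (hθ : 0 < θ)
    (hρ : 0 < ρ) (eR2 : R = Λ ^ 2 * ρ)
    (hMe : (M0 * Λ ^ 2 + 1024 * Λ ^ 4 * M1 ^ 2 + 8 * Λ ^ 2 / θ + M1 * Λ ^ 2) * e0 ≤ R) :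
    M0 * e0 ≤ ρ ∧ M1 * e0 ≤ ρ ∧ 8 * e0 ≤ θ * ρ ∧ 1024 * e0 * R * M1 ^ 2 ≤ ρ ^ 2 ∧ 256 * e0 * R < ρ ^ 2 := by
  have hΛp : 0 < Λ := by linarith
  have hM1p : 0 < M1 := by linarith
  have hRp : 0 < R := by
    rw [eR2]
    positivity
  have a1 : 0 < M0 * Λ ^ 2 * e0 := by positivity
  have a2 : 0 < 1024 * Λ ^ 4 * M1 ^ 2 * e0 := by positivity
  have a3 : 0 < 8 * Λ ^ 2 / θ * e0 := by positivity
  have a4 : 0 < M1 * Λ ^ 2 * e0 := by positivity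
  have hsum : M0 * Λ ^ 2 * e0 + 1024 * Λ ^ 4 * M1 ^ 2 * e0 + 8 * Λ ^ 2 / θ * e0 + M1 * Λ ^ 2 * e0 ≤ R := by
    have : (M0 * Λ ^ 2 + 1024 * Λ ^ 4 * M1 ^ 2 + 8 * Λ ^ 2 / θ + M1 * Λ ^ 2) * e0 =
      M0 * Λ ^ 2 * e0 + 1024 * Λ ^ 4 * M1 ^ 2 * e0 + 8 * Λ ^ 2 / θ * e0 + M1 * Λ ^ 2 * e0 := by ring
    rw [← this]
    exact hMe
  have b1 : M0 * Λ ^ 2 * e0 ≤ R := by linarith
  have b2 : 1024 * Λ ^ 4 * M1 ^ 2 * e0 ≤ R := by linarith
  have b3 : 8 * Λ ^ 2 / θ * e0 ≤ R := by linarith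
  have b4 : M1 * Λ ^ 2 * e0 ≤ R := by linarith
  have hb4 : 1024 * e0 * R * M1 ^ 2 ≤ ρ ^ 2 := by
    have h3 : Λ ^ 4 * (1024 * e0 * R * M1 ^ 2) ≤ Λ ^ 4 * ρ ^ 2 := by
      have h4 := mul_le_mul_of_nonneg_right b2 hRp.le
      have h5 : R * R = Λ ^ 4 * ρ ^ 2 := by
        rw [eR2]
        ring
      rw [h5] at h4
      calc Λ ^ 4 * (1024 * e0 * R * M1 ^ 2) = 1024 * Λ ^ 4 * M1 ^ 2 * e0 * R := by ring
        _ ≤ _ := h4
    exact le_of_mul_le_mul_left h3 (by positivity)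
  refine ⟨?_, ?_, ?_, hb4, ?_⟩
  · have h2 : Λ ^ 2 * (M0 * e0) ≤ Λ ^ 2 * ρ := by
      rw [← eR2]
      calc Λ ^ 2 * (M0 * e0) = M0 * Λ ^ 2 * e0 := by ring
        _ ≤ R := b1
    exact le_of_mul_le_mul_left h2 (by positivity)
  · have h2 : Λ ^ 2 * (M1 * e0) ≤ Λ ^ 2 * ρ := by
      rw [← eR2]
      calc Λ ^ 2 * (M1 * e0) = M1 * Λ ^ 2 * e0 := by ring
        _ ≤ R := b4
    exact le_of_mul_le_mul_left h2 (by positivity)
  · have h3 : Λ ^ 2 * (8 * e0) ≤ Λ ^ 2 * (θ * ρ) := by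
      have h4 := mul_le_mul_of_nonneg_left b3 hθ.le
      have h5 : θ * (8 * Λ ^ 2 / θ * e0) = Λ ^ 2 * (8 * e0) := by
        field_simp
      rw [h5] at h4
      calc Λ ^ 2 * (8 * e0) ≤ θ * R := h4
        _ = Λ ^ 2 * (θ * ρ) := by
          rw [eR2]
          ring
    exact le_of_mul_le_mul_left h3 (by positivity)
  · have h1 : 0 < e0 * R := by positivity
    have h3 : (1 : ℝ) ≤ M1 ^ 2 := by nlinarith
    calc 256 * e0 * R < 1024 * e0 * R := by nlinarith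
      _ ≤ 1024 * e0 * R * M1 ^ 2 := le_mul_of_one_le_right (by positivity) h3
      _ ≤ ρ ^ 2 := hb4

private theorem geo_s1 {e0 R ρ ρ1 L M1 s1 : ℝ} (he0 : 0 < e0) (hR : 0 < R) (hρ : 0 < ρ) (hρ1R : ρ1 ≤ R) (hL : 1 ≤ L) (hM1 : 0 < M1)
    (hs1 : 0 < s1) (h1 : (L * s1) ^ 2 ≤ 256 * e0 * ρ1) (hb4 : 1024 * e0 * R * M1 ^ 2 ≤ ρ ^ 2) : M1 * s1 ≤ ρ := by
  have h2 : 256 * e0 * ρ1 ≤ 256 * e0 * R := mul_le_mul_of_nonneg_left hρ1R (by positivity)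
  have h3 : (M1 * s1) ^ 2 ≤ ρ ^ 2 := by
    have h4 : s1 ^ 2 ≤ (L * s1) ^ 2 := by
      have : 1 * s1 ≤ L * s1 := mul_le_mul_of_nonneg_right hL hs1.le
      rw [one_mul] at this
      exact pow_le_pow_left₀ hs1.le this 2
    have h5 : s1 ^ 2 ≤ 256 * e0 * R := by linarith
    have h6 : M1 ^ 2 * s1 ^ 2 ≤ M1 ^ 2 * (256 * e0 * R) := mul_le_mul_of_nonneg_left h5 (by positivity)
    have h7 : 0 < M1 ^ 2 * (e0 * R) := by positivity
    calc (M1 * s1) ^ 2 = M1 ^ 2 * s1 ^ 2 := by ring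
      _ ≤ M1 ^ 2 * (256 * e0 * R) := h6
      _ ≤ 1024 * e0 * R * M1 ^ 2 := by nlinarith
      _ ≤ ρ ^ 2 := hb4
  exact le_of_sq_le_sq h3 hρ.le

theorem geo_u (d : ℕ) {θ0 : ℝ} (hθ0 : 0 < θ0) : ∃ K : ℝ, 1 ≤ K ∧ ∀ η M : ℝ, 0 < η → 0 < M → ∃ M2 : ℝ, 0 < M2 ∧
    ∀ {a b : Polynomial ℂ} {J : Set ℂ} {δ0 : ℝ}, Geo d a b J δ0 → Rng a b J θ0 → ∀ δ : ℝ, 0 < δ → ∀ c0 ∈ J, Cr a b c0 → Rcr a b c0 →
    FatM a b J M2 c0 →
    ∃ (ρ : ℝ) (V : Set ℂ) (ι : Type) (_ : Countable ι) (W : ι → Set ℂ) (m : ι → ℕ) (i0 : ι) (k2 p : ℕ) (q2 z2 α : ℂ) (t1 s1 e2 t2 : ℝ),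
      (∀ Z : Set ℂ, MeasurableSet Z → (∀ y, b.eval y ≠ 0 → gg a b y ∈ Z → y ∈ Z) → V ⊆ Z →
        Pool.Agent.H43.UP.Dat d a b Z V c0 ρ K η ι W m i0) ∧
      Cen a b J c0 ρ M K (K * kp a b c0) δ V (W i0) (m i0) k2 p q2 z2 α t1 s1 e2 t2 ∧ V ⊆ ball c0 δ := by
  obtain ⟨K0, hK0def⟩ : ∃ x : ℝ, x = AU ^ 2 := ⟨_, rfl⟩
  have hAU := AU_ge
  have hK0 : 1 ≤ K0 := by
    rw [hK0def]
    nlinarith
  obtain ⟨θ, hθ⟩ : ∃ x : ℝ, x = min θ0 1 := ⟨_, rfl⟩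
  have hθp : 0 < θ := hθ ▸ lt_min hθ0 one_pos
  have hθ1 : θ ≤ 1 := hθ ▸ min_le_right _ _
  have hθθ0 : θ ≤ θ0 := hθ ▸ min_le_left _ _
  obtain ⟨K1, hK1⟩ : ∃ x : ℝ, x = max K0 2 := ⟨_, rfl⟩
  have hK1a : K0 ≤ K1 := hK1 ▸ le_max_left _ _
  have hK1b : 2 ≤ K1 := hK1 ▸ le_max_right _ _
  obtain ⟨K, hKdef⟩ : ∃ x : ℝ, x = 8 * K1 / θ + AU := ⟨_, rfl⟩
  have h8 : 8 * K1 ≤ 8 * K1 / θ := by
    rw [le_div_iff₀ hθp]
    nlinarith
  have h8' : 8 / θ ≤ 8 * K1 / θ := by gcongr; linarith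
  have hK81 : 8 * K1 / θ ≤ K := by
    rw [hKdef]
    exact le_add_of_nonneg_right (by linarith)
  have hKK1 : K1 ≤ K := by
    refine le_trans ?_ (h8.trans hK81)
    linarith only [hK1b]
  have hKC : AU ≤ K := by
    rw [hKdef]
    exact le_add_of_nonneg_left (by positivity)
  have hK8 : 8 / θ ≤ K := h8'.trans hK81
  have hK2 : 2 / θ ≤ K := by
    have h9 : 2 / θ ≤ 8 / θ := by gcongr; norm_num
    exact h9.trans hK8
  refine ⟨K, by linarith only [hK1b, hKK1], ?_⟩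
  intro η M hη hM
  obtain ⟨η', hη'⟩ : ∃ x : ℝ, x = min η 1 := ⟨_, rfl⟩
  have hη'p : 0 < η' := hη' ▸ lt_min hη one_pos
  have hη'1 : η' ≤ 1 := hη' ▸ min_le_right _ _
  have hη'η : η' ≤ η := hη' ▸ min_le_left _ _
  obtain ⟨L, hL⟩ : ∃ x : ℝ, x = 64 / θ + 3 / η' + 16 := ⟨_, rfl⟩
  have hLθ0 : 0 < 64 / θ := by positivity
  have hLη0 : 0 < 3 / η' := by positivity
  have hL16 : 16 ≤ L := by linarith only [hL, hLθ0, hLη0]
  have hLp : 0 < L := by linarith only [hL16]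
  have hLθ : 64 ≤ L * θ := by
    have h1 : 64 / θ * θ ≤ L * θ := mul_le_mul_of_nonneg_right (by linarith only [hL, hLη0]) hθp.le
    rwa [div_mul_cancel₀ _ hθp.ne'] at h1
  have hηL : 3 ≤ η' * L := by
    have h1 : η' * (3 / η') ≤ η' * L := mul_le_mul_of_nonneg_left (by linarith only [hL, hLθ0]) hη'p.le
    rwa [mul_div_cancel₀ _ hη'p.ne'] at h1
  have hKKp := KK_pos
  have hKK1' := one_le_KK
  obtain ⟨L', hL'⟩ : ∃ x : ℝ, x = 128 * KK * L := ⟨_, rfl⟩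
  have hL'L : L ≤ L' := by
    rw [hL']
    exact le_mul_of_one_le_left hLp.le (by linarith only [hKK1'])
  have hL'p : 0 < L' := hLp.trans_le hL'L
  have hLdiv : L' / (128 * KK) = L := by
    rw [hL']
    field_simp
  obtain ⟨L1, hch1⟩ := chn_u d hL'p
  obtain ⟨Λ, hΛ⟩ : ∃ x : ℝ, x = max L1 0 + 2 * L' + 2 := ⟨_, rfl⟩
  have hm0 : 0 ≤ max L1 0 := le_max_right _ _
  have hΛ1 : L1 ≤ Λ := by
    have h9 := le_max_left L1 0
    linarith only [hΛ, h9, hL'p]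
  have hΛ2 : 2 * L' ≤ Λ := by linarith only [hΛ, hm0]
  have hΛ3 : 2 ≤ Λ := by linarith only [hΛ, hm0, hL'p]
  have hΛp : 0 < Λ := by linarith only [hΛ3]
  obtain ⟨M1, hM1⟩ : ∃ x : ℝ, x = M + 4 + 2 / η' := ⟨_, rfl⟩
  have h2η : 0 < 2 / η' := by positivity
  have hM1a : M ≤ M1 := by linarith only [hM1, h2η]
  have hM1b : 4 ≤ M1 := by linarith only [hM1, h2η, hM]
  have hM1p : 0 < M1 := by linarith only [hM1b]
  have hηM : 2 ≤ η' * M1 := by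
    have h1 : η' * (2 / η') ≤ η' * M1 := mul_le_mul_of_nonneg_left (by linarith only [hM1, hM]) hη'p.le
    rwa [mul_div_cancel₀ _ hη'p.ne'] at h1
  obtain ⟨M0, hM0, hch2⟩ := hch1 Λ hΛ1 M1 hM1p
  obtain ⟨M2, hM2⟩ : ∃ x : ℝ, x = M0 * Λ ^ 2 + 1024 * Λ ^ 4 * M1 ^ 2 + 8 * Λ ^ 2 / θ + M1 * Λ ^ 2 := ⟨_, rfl⟩
  have hM2p : 0 < M2 := by
    rw [hM2]
    positivity
  refine ⟨M2, hM2p, ?_⟩
  intro a b J δ0 h hring δ hδ c0 hc0 hcr hrec hfat
  obtain ⟨rr, hrr, hring⟩ := hring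
  obtain ⟨A, δl, -, hδl, -, hloc⟩ := loc h
  obtain ⟨δs, hδs, hscl⟩ := scl h
  obtain ⟨δf, hδf, hfld⟩ := fld h
  obtain ⟨δc, hδc, hcn1⟩ := cn1_u h
  obtain ⟨κ0, κ1, hκ0, hκb⟩ := kp_bds h
  obtain ⟨C0', hC0def⟩ : ∃ x : ℝ, x = AU * κ1 := ⟨_, rfl⟩
  have hC0' : ∀ c ∈ J, Cr a b c → AU * kp a b c ≤ C0' := by
    intro c hc hcc
    rw [hC0def]
    exact mul_le_mul_of_nonneg_left (hκb c hc hcc).2 (by linarith only [hAU])
  have hκc0 : 0 < kp a b c0 := hκ0.trans_le (hκb c0 hc0 hcr).1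
  obtain ⟨δ', hδ'⟩ : ∃ x : ℝ, x = min (min (min δ δ0) (min δl δs)) (min δf δc) := ⟨_, rfl⟩
  have hδ'p : 0 < δ' := hδ' ▸ lt_min (lt_min (lt_min hδ h.hδ) (lt_min hδl hδs)) (lt_min hδf hδc)
  have hδ1 : δ' ≤ δ := hδ' ▸ (min_le_left _ _).trans ((min_le_left _ _).trans (min_le_left _ _))
  have hδ2 : δ' ≤ δ0 := hδ' ▸ (min_le_left _ _).trans ((min_le_left _ _).trans (min_le_right _ _))
  have hδ3 : δ' ≤ δl := hδ' ▸ (min_le_left _ _).trans ((min_le_right _ _).trans (min_le_left _ _))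
  have hδ4 : δ' ≤ δs := hδ' ▸ (min_le_left _ _).trans ((min_le_right _ _).trans (min_le_right _ _))
  have hδ5 : δ' ≤ δf := hδ' ▸ (min_le_right _ _).trans (min_le_left _ _)
  have hδ6 : δ' ≤ δc := hδ' ▸ (min_le_right _ _).trans (min_le_right _ _)
  obtain ⟨r1, hr1, hch⟩ := hch2 h C0' hC0' δ' hδ'p
  rw [← hK0def] at hch
  obtain ⟨rs, hrs⟩ : ∃ x : ℝ, x = min (min r1 rr) (min δ' (δ / 4)) := ⟨_, rfl⟩
  have hrsp : 0 < rs := hrs ▸ lt_min (lt_min hr1 hrr) (lt_min hδ'p (by linarith only [hδ]))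
  obtain ⟨e0, R, he0, hMe, hRr, hcol⟩ := hfat rs hrsp
  have hR1 : R ≤ r1 := hRr.trans (hrs ▸ (min_le_left _ _).trans (min_le_left _ _))
  have hR2 : R ≤ rr := hRr.trans (hrs ▸ (min_le_left _ _).trans (min_le_right _ _))
  have hR3 : R ≤ δ' := hRr.trans (hrs ▸ (min_le_right _ _).trans (min_le_left _ _))
  have hR4 : R ≤ δ / 4 := hRr.trans (hrs ▸ (min_le_right _ _).trans (min_le_right _ _))
  have hRp : 0 < R := lt_of_lt_of_le (mul_pos hM2p he0) hMe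
  obtain ⟨ρ1, hρ1⟩ : ∃ x : ℝ, x = R / Λ := ⟨_, rfl⟩
  obtain ⟨ρ, hρ⟩ : ∃ x : ℝ, x = ρ1 / Λ := ⟨_, rfl⟩
  have hρ1p : 0 < ρ1 := by
    rw [hρ1]
    exact div_pos hRp hΛp
  have hρp : 0 < ρ := by
    rw [hρ]
    exact div_pos hρ1p hΛp
  have eR : R = Λ * ρ1 := by
    rw [hρ1]
    field_simp
  have eρ1 : ρ1 = Λ * ρ := by
    rw [hρ]
    field_simp
  have hρρ1 : ρ ≤ ρ1 := by
    rw [eρ1]
    exact le_mul_of_one_le_left hρp.le (by linarith only [hΛ3])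
  have hρ1R : ρ1 ≤ R := by
    rw [eR]
    exact le_mul_of_one_le_left hρ1p.le (by linarith only [hΛ3])
  have eR2 : R = Λ ^ 2 * ρ := by
    rw [eR, eρ1]
    ring
  obtain ⟨hb1, hb2, hb3, hb4, hb5⟩ := geo_ar he0 hΛ3 hM1b hM0 hθp hρp eR2 (hM2 ▸ hMe)
  -- the two roots
  have hC1 : Chs a b J c0 e0 ρ1 R M1 L' K0 C0' δ' :=
    chq_chs <| hch c0 hc0 hcr e0 ρ1 R he0 (hb1.trans hρρ1)
      (by rw [eR]; exact mul_le_mul_of_nonneg_right hΛ1 hρ1p.le) eR.le hR1 hcol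
  have hcol1 : PJ a b J ∩ ball c0 ρ1 ⊆ closedBall c0 e0 :=
    fun x hx => hcol ⟨hx.1, ball_subset_ball hρ1R hx.2⟩
  have hC2q : Chq a b J c0 e0 ρ ρ1 M1 L' K0 C0' (AU * kp a b c0) δ' :=
    hch c0 hc0 hcr e0 ρ ρ1 he0 hb1
      (by rw [eρ1]; exact mul_le_mul_of_nonneg_right hΛ1 hρp.le) eρ1.le (hρ1R.trans hR1) hcol1
  have hC2 : Chs a b J c0 e0 ρ ρ1 M1 L' K0 C0' δ' := chq_chs hC2q
  have hS1 : Scl a b c0 e0 ρ1 R L := by
    rw [← hLdiv]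
    refine hscl c0 hc0 hcr e0 ρ1 R M1 L' K0 C0' δ' he0 hρ1p ?_ (hR3.trans hδ2) hδ4 hδ2 (by linarith only [hL'L, hL16]) hC1
    rw [eR, ← mul_assoc]
    exact mul_le_mul_of_nonneg_right hΛ2 hρ1p.le
  have hρρ1' : 2 * (L' * ρ) ≤ ρ1 := by
    rw [eρ1, ← mul_assoc]
    exact mul_le_mul_of_nonneg_right hΛ2 hρp.le
  have hS2 : Scl a b c0 e0 ρ ρ1 L := by
    rw [← hLdiv]
    exact hscl c0 hc0 hcr e0 ρ ρ1 M1 L' K0 C0' δ' he0 hρp hρρ1' ((hρ1R.trans hR3).trans hδ2) hδ4 hδ2 (by linarith only [hL'L, hL16]) hC2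
  obtain ⟨V, hV⟩ := nic hρp hρρ1 hL16 hS1 hb5
  have hGW : GW a b J δ0 c0 e0 ρ ρ1 M1 L K1 C0' δ' V :=
    { cJ := hc0
      cr := hcr
      e0p := he0
      hM := hM1b
      hL := by linarith only [hL16]
      hK := hK1b
      e0ρ := hb2
      ρρ1 := by
        have h9 : L * ρ ≤ L' * ρ := mul_le_mul_of_nonneg_right hL'L hρp.le
        linarith only [h9, hρρ1']
      ρ1δ := hρ1R.trans hR3
      δδ0 := hδ2
      bn := fun z hz => ((hloc c0 hc0 hcr).1 z (ball_subset_ball ((hρ1R.trans hR3).trans hδ3) hz)).1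
      col := hcol1
      nic := hV
      chs := chs_mono le_rfl hL'L hK1a le_rfl le_rfl hC2
      scl := hS2 }
  obtain ⟨C0, m0, k2, q2, t1, s1, e2, t2, s2, r2, hCe⟩ := hcn1 c0 e0 ρ ρ1 M1 L K1 C0' (AU * kp a b c0) δ' V hGW
    (chq_mono le_rfl hL'L hK1a le_rfl le_rfl hC2q) hδ6 hrec
  obtain ⟨w', hw'J, hw'1, hw'2, hw'p⟩ := hring c0 hc0 hcr ρ hρp ((hρρ1.trans hρ1R).trans hR2)
  have hw'1' : θ * ρ ≤ ‖w' - c0‖ := (mul_le_mul_of_nonneg_right hθθ0 hρp.le).trans hw'1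
  obtain ⟨α, hαJ, p, hα1, hα2, hp, hαp, hαn, hαm⟩ := alp h hGW hθp (by linarith only [hb3, he0]) hLθ hw'J hw'1' hw'2 hw'p
  obtain ⟨z2, hzJ, hzα, hzu, hzl, hzn, hzd⟩ := ztw h hGW hθp hθ1 hb3 (ce1_mono (hC0' c0 hc0 hcr) hCe) hαJ hα1 hα2
  have hRet := wdr h hGW m0 C0 hCe.C0W
  have hs1p : 0 < s1 := by
    have h1 := hCe.out hCe.cC
    rw [mem_ball, dist_self] at h1
    exact h1
  have ht2p : 0 < t2 := hCe.fr.he.trans_le hCe.fr.et
  have hMs1 : M1 * s1 ≤ ρ := geo_s1 he0 hRp hρp hρ1R (by linarith only [hL16]) hM1p hs1p hCe.s1q hb4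
  have hs1ρ4 : s1 ≤ ρ / 4 := by
    have h1 : 4 * s1 ≤ M1 * s1 := mul_le_mul_of_nonneg_right hM1b hs1p.le
    linarith only [h1, hMs1]
  have hVb : V ⊆ ball c0 δ := hV.out.trans (ball_subset_ball (by linarith only [hρρ1, hρ1R, hR4, hδ]))
  have hVne : (Vᶜ : Set ℂ).Nonempty := by
    refine ⟨c0 + ((2 * ρ : ℝ) : ℂ), fun hcon => ?_⟩
    have h1 := hV.out hcon
    rw [mem_ball_iff_norm, add_sub_cancel_left, Complex.norm_real, Real.norm_eq_abs, abs_of_pos (by positivity)] at h1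
    exact lt_irrefl _ h1
  -- the index set
  let ι : Type := {x : ℕ × Set ℂ // x.2 ∈ WD a b V x.1}
  have hR' : ∀ i : ι, Ret a b V L i.1.1 i.1.2 := fun i => wdr h hGW _ _ i.2
  have hdis : ∀ i j : ι, i ≠ j → Disjoint i.1.2 j.1.2 := by
    intro i j hij
    rcases wdd h hGW _ _ _ i.2 _ j.2 with ⟨h1, h2⟩ | h1
    · exact absurd (Subtype.ext (Prod.ext h1 h2)) hij
    · exact h1
  have hcount : Countable ι := by
    have h1 : (univ : Set ι).PairwiseDisjoint (fun i => i.1.2) := fun i _ j _ hij => hdis i j hij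
    have h2 := h1.countable_of_isOpen (fun i _ => (hR' i).op) (fun i _ => (hR' i).ne)
    exact countable_univ_iff.1 h2
  refine ⟨ρ, V, ι, hcount, fun i => i.1.2, fun i => i.1.1, ⟨(m0, C0), hCe.C0W⟩, k2, p, q2, z2, α, t1, s1, e2, t2, ?_, ?_, hVb⟩
  · intro Z hZm hZi hVZ
    have huf : ∀ i : ι, Pool.Agent.H43.UP.Unf a b V c0 ρ η' i.1.1 i.1.2 ∨ Pool.Agent.H43.UP.Fld a b K1 η' i.1.1 i.1.2 :=
      fun i => hfld c0 e0 ρ ρ1 M1 L K1 C0' δ' η' V hGW hδ5 (by linarith only [hηL]) (by linarith only [hηM]) _ _ i.2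
    exact
      { rt := h.rt
        Zm := hZm
        Zi := hZi
        Vo := hV.op
        VZ := hVZ
        hρ := hρp
        Vb := hV.inn
        Vs := hV.out
        Wo := fun i => (hR' i).op
        WV := fun i => (hR' i).sub
        Wd := hdis
        m0 := fun i => (hR' i).pos
        fin := fun i z hz => (mem_pre.1 ((hR' i).ret z hz)).1
        nr := fun i z hz => (hR' i).fst z hz
        ret := fun i z hz => (mem_pre.1 ((hR' i).ret z hz)).2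
        cov := by
          intro z hz n hn hb hgz
          obtain ⟨m, W, hW, hzW, -⟩ := wdc (a := a) (b := b) z hz ⟨n, hn, mem_pre.2 ⟨hb, hgz⟩⟩
          exact ⟨⟨(m, W), hW⟩, hzW⟩
        sm := by
          intro i z hz z' hz'
          have h1 := (hR' i).small z hz z' hz'
          have hzV := (hR' i).sub hz
          have h2 : 0 < infDist z Vᶜ := by
            have h3 : z ∉ closure Vᶜ := by
              rw [hV.op.isClosed_compl.closure_eq]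
              exact fun hcon => hcon hzV
            exact (infDist_pos_iff_notMem_closure hVne).1 h3
          have h4 : L * ‖z - z'‖ ≤ infDist z Vᶜ := by
            rw [le_infDist hVne]
            intro y hy
            by_contra hcon
            push Not at hcon
            exact hy (h1 (by rw [mem_ball, dist_comm]; exact hcon))
          rw [norm_sub_rev]
          have h5 : η' * (L * ‖z - z'‖) ≤ η' * infDist z Vᶜ := mul_le_mul_of_nonneg_left h4 hη'p.le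
          have h6 : η' * infDist z Vᶜ ≤ η * infDist z Vᶜ := mul_le_mul_of_nonneg_right hη'η h2.le
          have h7 : 3 * ‖z - z'‖ ≤ η' * L * ‖z - z'‖ := mul_le_mul_of_nonneg_right hηL (norm_nonneg _)
          have h8 := norm_nonneg (z - z')
          have h9 : 0 < η * infDist z Vᶜ := mul_pos hη h2
          have h10 : η' * L * ‖z - z'‖ = η' * (L * ‖z - z'‖) := mul_assoc _ _ _
          linarith only [h5, h6, h7, h8, h9, h10]
        uf := by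
          intro i
          rcases huf i with h1 | h1
          · exact Or.inl (unf_mono hρp hη'p hη'η h1)
          · exact Or.inr (fld_mono hKK1 hη'η h1)
        f0 := by
          rcases huf ⟨(m0, C0), hCe.C0W⟩ with h1 | h1
          · exact (not_unf hρp hη'p hη'1 hCe.m0p hV.out hcr hCe.cC h1).elim
          · exact fld_mono hKK1 hη'η h1
        c0W := hCe.cC
        W0s := hCe.out.trans (ball_subset_ball (by linarith only [hs1ρ4, hρp])) }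
  · exact
      { hρ := hρp
        hρδ := by linarith only [hρρ1, hρ1R, hR4, hδ]
        cJ := hc0
        cr := hcr
        cC := hCe.cC
        t1p := hCe.t1p
        inn := hCe.inn
        out := hCe.out
        st1 := hCe.st1.trans (mul_le_mul_of_nonneg_right hKK1 hCe.t1p.le)
        s1ρ := (mul_le_mul_of_nonneg_right hM1a hs1p.le).trans hMs1
        k2p := hCe.k2p
        k2m := hCe.k2m
        pr := hRet.ret c0 hCe.cC
        q2J := hCe.q2J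
        q2c := hCe.q2c
        e2p := hCe.fr.he
        vq := hCe.vq
        te2 := (mul_le_mul_of_nonneg_right hM1a hCe.fr.he.le).trans hCe.te2
        t2δ := (((hCe.fr.ts.trans hCe.fr.sr).trans hCe.r2δ).trans hδ1)
        B0 := hCe.B0
        B := hCe.B.trans (mul_le_mul_of_nonneg_right (mul_le_mul_of_nonneg_right hKC hκc0.le) (by positivity))
        nv := fun j hj hj' => hRet.fst c0 hCe.cC j hj (hj'.trans_le hCe.k2m)
        nq := hCe.nq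
        eq := hCe.eq
        αJ := hαJ
        α1 := by
          have h1 : 2 / θ * (θ * ρ / 2) ≤ 2 / θ * ‖α - c0‖ := mul_le_mul_of_nonneg_left hα1 (by positivity)
          have h2 : 2 / θ * (θ * ρ / 2) = ρ := by
            field_simp
          have h3 : 2 / θ * ‖α - c0‖ ≤ K * ‖α - c0‖ := mul_le_mul_of_nonneg_right hK2 (norm_nonneg _)
          linarith only [h1, h2, h3]
        α2 := hα2
        pp := hp
        αp := hαp
        αn := hαn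
        αm := hαm
        zJ := hzJ
        zα := hzα
        zu := hzu.trans (mul_le_mul_of_nonneg_right hKK1 ht2p.le)
        zl := hzl.trans (mul_le_mul_of_nonneg_right hK8 (norm_nonneg _))
        zn := hzn
        zd := by
          have h1 : 0 ≤ t2 * ‖tD a b (m0 - k2) z2‖ := by positivity
          have h2 : 8 * K1 / θ * (t2 * ‖tD a b (m0 - k2) z2‖) ≤ K * (t2 * ‖tD a b (m0 - k2) z2‖) :=
            mul_le_mul_of_nonneg_right hK81 h1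
          have h3 : ρ ≤ 8 * K1 / θ * (t2 * ‖tD a b (m0 - k2) z2‖) := by
            rw [div_mul_eq_mul_div, le_div_iff₀ hθp]
            linarith only [hzd]
          calc ρ ≤ 8 * K1 / θ * (t2 * ‖tD a b (m0 - k2) z2‖) := h3
            _ ≤ K * (t2 * ‖tD a b (m0 - k2) z2‖) := h2
            _ = K * ‖tD a b (m0 - k2) z2‖ * t2 := by ring }

end Pool.Agent.H83.BE
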