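import Pool.Agent.H18.UP.LOC
import Pool.Agent.H39.BE.Defs

/-!
# THEOREM BEAU: local estimates at the critical points with universal constants

`kp a b c = |g''(c)|`. Near a simple critical point `c ∈ J`: `kp / 4 * |x - c| ^ 2 ≤ |g x - g c| ≤ kp * |x - c| ^ 2`. The quotient formula and the covering are those of `H18/UP/LOC` (copied, with the constant made explicit).
-/

set_option autoImplicit false

open Filter Topology Polynomial Metric Set MeasureTheory

namespace Pool.Agent.H83.BE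

open Pool.Agent.H44.Fatou (rat rat_continuous)
open Pool.Agent.H80.AJ (Br KK one_le_KK KK_pos distort distort_lip deriv_ne univ_cover)
open Pool.Agent.H32.BT (IsCrit)
open Pool.Agent.H61.TT Pool.Agent.H57.CP Pool.Agent.H3.NC Pool.Agent.H18.UP
open Pool.Agent.H39.BE (kp)

variable {d : ℕ} {a b : Polynomial ℂ} {J : Set ℂ} {δ0 : ℝ}

/-- the quotient of `gg x - gg c` by `(x - c) ^ 2` -/
private theorem loc_alg (a b : Polynomial ℂ) (c : ℂ) (hw : (ww a b).eval c = 0) : ∃ Q : Polynomial ℂ,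
      2 * Q.eval c = (derivative (ww a b)).eval c ∧
      ∀ x : ℂ, b.eval x ≠ 0 → b.eval c ≠ 0 →
        gg a b x - gg a b c = (x - c) ^ 2 * (Q.eval x / (b.eval x * b.eval c)) := by
  set P : Polynomial ℂ := a * C (b.eval c) - C (a.eval c) * b with hP
  have h0 : P.IsRoot c := by
    rw [IsRoot.def, hP]
    simp only [eval_sub, eval_mul, eval_C]
    ring
  obtain ⟨P1, hP1⟩ := dvd_iff_isRoot.2 h0
  have hd1 : derivative P = derivative a * C (b.eval c) - C (a.eval c) * derivative b := by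
    rw [hP]
    simp only [derivative_sub, derivative_mul, derivative_C, mul_zero, add_zero, zero_mul, zero_add]
  have h1 : P1.IsRoot c := by
    have h2 : (derivative P).eval c = P1.eval c := by
      rw [hP1]
      simp only [derivative_mul, derivative_sub, derivative_X, derivative_C, eval_add, eval_mul,
        eval_sub, eval_X, eval_C, eval_one]
      simp
    rw [IsRoot.def, ← h2, hd1]
    simp only [eval_sub, eval_mul, eval_C]
    have h3 : (ww a b).eval c = (derivative a).eval c * b.eval c - a.eval c * (derivative b).eval c := by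
      unfold ww
      simp only [eval_sub, eval_mul]
    rw [← h3, hw]
  obtain ⟨Q, hQ⟩ := dvd_iff_isRoot.2 h1
  have hPQ : P = (X - C c) ^ 2 * Q := by
    rw [hP1, hQ]
    ring
  refine ⟨Q, ?_, ?_⟩
  · have h2 : (derivative (derivative P)).eval c = 2 * Q.eval c := by
      rw [hPQ]
      simp only [derivative_mul, derivative_pow, derivative_sub, derivative_X, derivative_C, derivative_add,
        eval_add, eval_mul, eval_sub, eval_X, eval_C, eval_pow]
      simp
    have h3 : (derivative (derivative P)).eval c = (derivative (ww a b)).eval c := by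
      rw [hd1]
      unfold ww
      simp only [derivative_sub, derivative_mul, derivative_C, mul_zero, add_zero, zero_mul, zero_add,
        eval_sub, eval_mul, eval_add, eval_C]
      ring
    rw [← h2, h3]
  · intro x hx hc
    have h2 : P.eval x = (x - c) ^ 2 * Q.eval x := by
      rw [hPQ]
      simp
    rw [hP] at h2
    simp only [eval_sub, eval_mul, eval_C] at h2
    unfold gg
    field_simp
    linear_combination h2

theorem kp_pos {c : ℂ} (hb : b.eval c ≠ 0) (hw' : (derivative (ww a b)).eval c ≠ 0) : 0 < kp a b c := by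
  unfold kp
  exact norm_pos_iff.2 (div_ne_zero hw' (pow_ne_zero 2 hb))

/-- the estimate at one critical point -/
private theorem loc_one (a b : Polynomial ℂ) (c : ℂ) (hb : b.eval c ≠ 0) (hw : (ww a b).eval c = 0)
    (hw' : (derivative (ww a b)).eval c ≠ 0) : ∀ᶠ δ in 𝓝[>] (0 : ℝ),
      ∀ x ∈ ball c δ, b.eval x ≠ 0 ∧ kp a b c * ‖x - c‖ ^ 2 ≤ 4 * ‖gg a b x - gg a b c‖ ∧
        ‖gg a b x - gg a b c‖ ≤ kp a b c * ‖x - c‖ ^ 2 := by
  obtain ⟨Q, hQ, hg⟩ := loc_alg a b c hw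
  have hucont : ContinuousAt (fun x => ‖Q.eval x / (b.eval x * b.eval c)‖) c :=
    (Q.continuous.continuousAt.div (b.continuous.continuousAt.mul continuousAt_const)
      (mul_ne_zero hb hb)).norm
  set U : ℝ := ‖Q.eval c / (b.eval c * b.eval c)‖ with hU
  have hkU : kp a b c = 2 * U := by
    rw [hU]
    unfold kp
    rw [← hQ, norm_div, norm_div, norm_mul, norm_pow, norm_mul, Complex.norm_ofNat]
    ring
  have hUpos : 0 < U := by
    have := kp_pos hb hw'
    linarith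
  have e1 : ∀ᶠ x in 𝓝 c, U / 2 < ‖Q.eval x / (b.eval x * b.eval c)‖ :=
    hucont.eventually (lt_mem_nhds (by show U / 2 < U; linarith))
  have e2 : ∀ᶠ x in 𝓝 c, ‖Q.eval x / (b.eval x * b.eval c)‖ < 2 * U :=
    hucont.eventually (gt_mem_nhds (by show U < 2 * U; linarith))
  have e3 : ∀ᶠ x in 𝓝 c, b.eval x ≠ 0 := b.continuous.continuousAt.eventually_ne hb
  obtain ⟨δ, hδ, hall⟩ := Metric.eventually_nhds_iff_ball.1 (e1.and (e2.and e3))
  filter_upwards [Ioo_mem_nhdsGT hδ] with t ht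
  intro x hx
  obtain ⟨h1, h2, h3⟩ := hall x (ball_subset_ball ht.2.le hx)
  refine ⟨h3, ?_, ?_⟩
  · rw [hg x h3 hb, norm_mul, norm_pow, hkU]
    have h4 : 0 ≤ ‖x - c‖ ^ 2 := by positivity
    nlinarith
  · rw [hg x h3 hb, norm_mul, norm_pow, hkU, mul_comm]
    exact mul_le_mul_of_nonneg_right h2.le (by positivity)

/-- bounds for `kp` at the critical points in `J` -/
theorem kp_bds (h : Geo d a b J δ0) : ∃ κ0 κ1 : ℝ, 0 < κ0 ∧ ∀ c ∈ J, Cr a b c → κ0 ≤ kp a b c ∧ kp a b c ≤ κ1 := by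
  have hfin : {c : ℂ | c ∈ J ∧ Cr a b c}.Finite := (cr_fin h).subset fun c hc => hc.2
  have e1 : ∀ᶠ δ in 𝓝[>] (0 : ℝ), ∀ c ∈ {c : ℂ | c ∈ J ∧ Cr a b c}, δ ≤ kp a b c := by
    refine (eventually_all_finite hfin).2 fun c hc => ?_
    filter_upwards [Ioo_mem_nhdsGT (kp_pos hc.2.1 (h.sim c hc.1 hc.2))] with t ht
    exact ht.2.le
  have e2 : ∀ᶠ A in (atTop : Filter ℝ), ∀ c ∈ {c : ℂ | c ∈ J ∧ Cr a b c}, kp a b c ≤ A :=
    (eventually_all_finite hfin).2 fun c hc => eventually_ge_atTop _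
  obtain ⟨κ0, h1, h2⟩ := (e1.and self_mem_nhdsWithin).exists
  obtain ⟨κ1, h3⟩ := e2.exists
  exact ⟨κ0, κ1, h2, fun c hc hcr => ⟨h1 c ⟨hc, hcr⟩, h3 c ⟨hc, hcr⟩⟩⟩

theorem loc_u (h : Geo d a b J δ0) : ∃ δ1 : ℝ, 0 < δ1 ∧ δ1 ≤ 1 ∧ ∀ c ∈ J, Cr a b c →
    (∀ x ∈ ball c δ1, b.eval x ≠ 0 ∧ kp a b c * ‖x - c‖ ^ 2 ≤ 4 * ‖gg a b x - gg a b c‖ ∧
      ‖gg a b x - gg a b c‖ ≤ kp a b c * ‖x - c‖ ^ 2) ∧
    (∀ c' ∈ J, Cr a b c' → c' ≠ c → δ1 ≤ ‖c' - c‖) ∧
    (∀ t : ℝ, 0 < t → t ≤ δ1 → ∀ w ∈ ball (gg a b c) (kp a b c * t ^ 2 / 32), ∃ x ∈ ball c t, gg a b x = w) := by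
  have hfin : {c : ℂ | c ∈ J ∧ Cr a b c}.Finite := (cr_fin h).subset fun c hc => hc.2
  have e2 := (eventually_all_finite hfin).2 fun c hc => loc_one a b c hc.2.1 hc.2.2 (h.sim c hc.1 hc.2)
  have e3 : ∀ᶠ δ in 𝓝[>] (0 : ℝ), ∀ c ∈ {c : ℂ | c ∈ J ∧ Cr a b c}, ∀ c' ∈ {c : ℂ | c ∈ J ∧ Cr a b c},
      c' ≠ c → δ ≤ ‖c' - c‖ := by
    refine (eventually_all_finite hfin).2 fun c _ => (eventually_all_finite hfin).2 fun c' _ => ?_
    by_cases hcc : c' = c
    · exact Eventually.of_forall fun _ hne => absurd hcc hne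
    · filter_upwards [Ioo_mem_nhdsGT (norm_pos_iff.2 (sub_ne_zero.2 hcc))] with t ht _
      exact ht.2.le
  obtain ⟨δ, ⟨hδ2, hδ3⟩, hδ0, hδ1⟩ := ((e2.and e3).and (Ioo_mem_nhdsGT (zero_lt_one (α := ℝ)))).exists
  refine ⟨δ, hδ0, hδ1.le, fun c hcJ hc => ⟨fun x hx => hδ2 c ⟨hcJ, hc⟩ x hx, fun c' hc'J hc' hne => ?_,
    fun t ht0 htδ w hw => ?_⟩⟩
  · exact hδ3 c ⟨hcJ, hc⟩ c' ⟨hc'J, hc'⟩ hne
  · have hκ : 0 < kp a b c := kp_pos hc.1 (h.sim c hcJ hc)
    have hsub : closedBall c (t / 2) ⊆ ball c δ := closedBall_subset_ball (by linarith)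
    have hdiff : DifferentiableOn ℂ (gg a b) (ball c δ) := by
      intro x hx
      exact (a.differentiableAt.div b.differentiableAt (hδ2 c ⟨hcJ, hc⟩ x hx).1).differentiableWithinAt
    have hd : DiffContOnCl ℂ (gg a b) (ball c (t / 2)) := by
      refine DifferentiableOn.diffContOnCl ?_
      rw [closure_ball c (by linarith : t / 2 ≠ 0)]
      exact hdiff.mono hsub
    have hne : ∃ᶠ z in 𝓝 c, gg a b z ≠ gg a b c := by
      have h1 : ∀ᶠ z in 𝓝[≠] c, gg a b z ≠ gg a b c := by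
        filter_upwards [self_mem_nhdsWithin, mem_nhdsWithin_of_mem_nhds (ball_mem_nhds c hδ0)] with z hz hzb
        intro heq
        obtain ⟨-, h2, -⟩ := hδ2 c ⟨hcJ, hc⟩ z hzb
        rw [heq, sub_self, norm_zero, mul_zero] at h2
        have h3 : 0 < ‖z - c‖ := norm_pos_iff.2 (sub_ne_zero.2 hz)
        have h4 : 0 < kp a b c * ‖z - c‖ ^ 2 := by positivity
        linarith
      exact h1.frequently.filter_mono nhdsWithin_le_nhds
    have hsph : ∀ z ∈ sphere c (t / 2), kp a b c * t ^ 2 / 16 ≤ ‖gg a b z - gg a b c‖ := by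
      intro z hz
      have hzn : ‖z - c‖ = t / 2 := by rwa [mem_sphere_iff_norm] at hz
      obtain ⟨-, h2, -⟩ := hδ2 c ⟨hcJ, hc⟩ z (hsub (sphere_subset_closedBall hz))
      rw [hzn] at h2
      linarith
    have himg := hd.ball_subset_image_closedBall (by linarith) hsph hne
    have hw' : w ∈ ball (gg a b c) (kp a b c * t ^ 2 / 16 / 2) := by
      have h1 : kp a b c * t ^ 2 / 16 / 2 = kp a b c * t ^ 2 / 32 := by ring
      rwa [h1]
    obtain ⟨x, hx, hxw⟩ := himg hw'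
    exact ⟨x, closedBall_subset_ball (by linarith) hx, hxw⟩

end Pool.Agent.H83.BE
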